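import Mathlib

set_option autoImplicit false

/-!
# Norms of polynomials in `X (1 + √c) / 2`
-/

open Polynomial

namespace Pool.Agent.V7H55.ET2

section

variable {A : Type} [CommRing A]

/-- substitute `h X (1 + √c)` for `X` -/
noncomputable def ph (h c : A) : A[X] →+* QuadraticAlgebra A[X] (C c) 0 :=
  eval₂RingHom ((algebraMap A[X] (QuadraticAlgebra A[X] (C c) 0)).comp C) ⟨C h * X, C h * X⟩

/-- the norm of `P(h X (1 + √c))` -/
noncomputable def Nm (h c : A) (P : A[X]) : A[X] := (ph h c P).re ^ 2 - C c * (ph h c P).im ^ 2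

lemma ph_C (h c a : A) : ph h c (C a) = ⟨C a, 0⟩ := by
  unfold ph
  rw [coe_eval₂RingHom, eval₂_C]
  rfl

lemma ph_X (h c : A) : ph h c X = ⟨C h * X, C h * X⟩ := by
  unfold ph
  rw [coe_eval₂RingHom, eval₂_X]

/-- norms remain norms -/
lemma Nm_of (h c a : A) {P U V : A[X]} (hP : P = U ^ 2 - C a * V ^ 2) :
    ∃ U' V' : A[X], Nm h c P = U' ^ 2 - C a * V' ^ 2 := by
  have h1 : ph h c P = ph h c U ^ 2 - ⟨C a, 0⟩ * ph h c V ^ 2 := by
    rw [hP, map_sub, map_pow, map_mul, map_pow, ph_C]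
  set u := ph h c U
  set v := ph h c V
  refine ⟨(u.re ^ 2 - C c * u.im ^ 2) + C a * (v.re ^ 2 - C c * v.im ^ 2),
    2 * (u.re * v.re - C c * u.im * v.im), ?_⟩
  unfold Nm
  rw [h1]
  simp only [pow_two, QuadraticAlgebra.re_sub, QuadraticAlgebra.im_sub, QuadraticAlgebra.re_mul,
    QuadraticAlgebra.im_mul]
  ring

/-- the powers of `1 + √c` -/
def pw1 (c : A) : ℕ → A × A
  | 0 => (1, 0)
  | n + 1 => ((pw1 c n).1 + c * (pw1 c n).2, (pw1 c n).1 + (pw1 c n).2)

lemma ph_pow (h c : A) (n : ℕ) :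
    ph h c (X ^ n) = ⟨(C h * X) ^ n * C (pw1 c n).1, (C h * X) ^ n * C (pw1 c n).2⟩ := by
  induction n with
  | zero =>
    rw [pow_zero, map_one]
    simp only [pw1, pow_zero, map_one, map_zero, mul_one, mul_zero]
    rfl
  | succ n ih =>
    rw [pow_succ, map_mul, ih, ph_X, QuadraticAlgebra.mk_mul_mk]
    simp only [pw1, map_add, map_mul]
    congr 1 <;> ring

lemma ph_monomial (h c : A) (n : ℕ) (a : A) :
    ph h c (monomial n a) = ⟨C a * ((C h * X) ^ n * C (pw1 c n).1),
      C a * ((C h * X) ^ n * C (pw1 c n).2)⟩ := by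
  rw [← C_mul_X_pow_eq_monomial, map_mul, ph_C, ph_pow, QuadraticAlgebra.mk_mul_mk]
  congr 1 <;> ring

/-- the values at `X = 2` -/
lemma ph_eval {h c : A} (h2 : 2 * h = 1) (P : A[X]) :
    (ph h c P).re.eval 2 = P.sum (fun n a => a * (pw1 c n).1) ∧
      (ph h c P).im.eval 2 = P.sum (fun n a => a * (pw1 c n).2) := by
  have hh : h * 2 = 1 := by rw [mul_comm, h2]
  induction P using Polynomial.induction_on' with
  | add P Q hP hQ =>
    rw [map_add, QuadraticAlgebra.re_add, QuadraticAlgebra.im_add, eval_add, eval_add, hP.1, hP.2,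
      hQ.1, hQ.2]
    constructor
    · rw [sum_add_index]
      · intro i
        rw [zero_mul]
      · intro n a b
        rw [add_mul]
    · rw [sum_add_index]
      · intro i
        rw [zero_mul]
      · intro n a b
        rw [add_mul]
  | monomial n a =>
    rw [ph_monomial]
    constructor
    · rw [sum_monomial_index _ _ (by rw [zero_mul])]
      simp only [eval_mul, eval_C, eval_pow, eval_X, hh, one_pow, one_mul]
    · rw [sum_monomial_index _ _ (by rw [zero_mul])]
      simp only [eval_mul, eval_C, eval_pow, eval_X, hh, one_pow, one_mul]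

/-- the values at `X = 0` -/
lemma ph_eval_zero {h c : A} (P : A[X]) :
    (ph h c P).re.eval 0 = P.eval 0 ∧ (ph h c P).im.eval 0 = 0 := by
  induction P using Polynomial.induction_on' with
  | add P Q hP hQ =>
    rw [map_add, QuadraticAlgebra.re_add, QuadraticAlgebra.im_add, eval_add, eval_add, eval_add,
      hP.1, hP.2, hQ.1, hQ.2, add_zero]
    exact ⟨rfl, rfl⟩
  | monomial n a =>
    rw [ph_monomial]
    rcases n with _ | n
    · simp [pw1]
    · simp [eval_monomial]

lemma Nm_eval_zero {h c : A} (P : A[X]) : (Nm h c P).eval 0 = (P.eval 0) ^ 2 := by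
  unfold Nm
  rw [eval_sub, eval_mul, eval_pow, eval_pow, (ph_eval_zero P).1, (ph_eval_zero P).2]
  ring

end

section real

lemma pw1_map {A B : Type} [CommRing A] [CommRing B] (f : A →+* B) (c : A) (n : ℕ) :
    pw1 (f c) n = (f (pw1 c n).1, f (pw1 c n).2) := by
  induction n with
  | zero => simp [pw1]
  | succ n ih => simp only [pw1, ih, map_add, map_mul]

lemma pw1_cont (n : ℕ) : Continuous (fun x : ℝ => (pw1 x n).1) ∧
    Continuous (fun x : ℝ => (pw1 x n).2) := by
  induction n with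
  | zero => exact ⟨continuous_const, continuous_const⟩
  | succ n ih =>
    obtain ⟨h1, h2⟩ := ih
    exact ⟨h1.add (continuous_id.mul h2), h1.add h2⟩

lemma pw1_one {B : Type} [CommRing B] (n : ℕ) :
    (pw1 (1 : B) n).1 + (pw1 (1 : B) n).2 = 2 ^ n ∧
      (pw1 (1 : B) n).1 - (pw1 (1 : B) n).2 = 0 ^ n := by
  induction n with
  | zero => simp [pw1]
  | succ n ih =>
    constructor
    · simp only [pw1]
      rw [pow_succ, ← ih.1]
      ring
    · simp only [pw1]
      rw [zero_pow (Nat.succ_ne_zero n)]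
      ring

variable {A : Type} [CommRing A]

/-- the value of the norm at `2` as a function of `√c` -/
noncomputable def gg (l : A →+* ℝ) (P : A[X]) (x : ℝ) : ℝ :=
  (∑ n ∈ P.support, l (P.coeff n) * (pw1 x n).1) ^ 2 -
    x * (∑ n ∈ P.support, l (P.coeff n) * (pw1 x n).2) ^ 2

lemma gg_cont (l : A →+* ℝ) (P : A[X]) : Continuous (gg l P) := by
  unfold gg
  refine Continuous.sub (Continuous.pow ?_ 2) (continuous_id.mul (Continuous.pow ?_ 2))
  · exact continuous_finsetSum _ fun n _ => continuous_const.mul (pw1_cont n).1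
  · exact continuous_finsetSum _ fun n _ => continuous_const.mul (pw1_cont n).2

lemma gg_eq (l : A →+* ℝ) (P : A[X]) {h c : A} (h2 : 2 * h = 1) :
    l ((Nm h c P).eval 2) = gg l P (l c) := by
  unfold Nm gg
  rw [eval_sub, eval_mul, eval_pow, eval_pow, eval_C, (ph_eval h2 P).1, (ph_eval h2 P).2, map_sub,
    map_mul, map_pow, map_pow, Polynomial.sum, Polynomial.sum, map_sum, map_sum]
  simp only [map_mul, pw1_map]

lemma gg_one (l : A →+* ℝ) (P : A[X]) :
    gg l P 1 = l (P.eval 2) * l (P.eval 0) := by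
  have e : gg l P 1 = ((∑ n ∈ P.support, l (P.coeff n) * (pw1 (1 : ℝ) n).1) +
      ∑ n ∈ P.support, l (P.coeff n) * (pw1 (1 : ℝ) n).2) *
      ((∑ n ∈ P.support, l (P.coeff n) * (pw1 (1 : ℝ) n).1) -
      ∑ n ∈ P.support, l (P.coeff n) * (pw1 (1 : ℝ) n).2) := by
    unfold gg
    ring
  rw [e, ← Finset.sum_add_distrib, ← Finset.sum_sub_distrib]
  congr 1
  · rw [eval_eq_sum, Polynomial.sum, map_sum]
    refine Finset.sum_congr rfl fun n _ => ?_
    rw [← mul_add, (pw1_one n).1, map_mul, map_pow, map_ofNat]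
  · rw [eval_eq_sum, Polynomial.sum, map_sum]
    refine Finset.sum_congr rfl fun n _ => ?_
    rw [← mul_sub, (pw1_one n).2, map_mul, map_pow, map_zero]

end real

end Pool.Agent.V7H55.ET2
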