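import Mathlib
import Pool.Agent.V7H55.ET2.Poly

set_option autoImplicit false

/-!
# A negative element which is a norm from `F(√c)` for all positive `c`
-/

open Polynomial ArchimedeanClass

namespace Pool.Agent.V7H55.ET2

section

variable (F : Type) [Field F] [LinearOrder F] [IsStrictOrderedRing F]

/-- the real place of the ordering on the finite elements -/
noncomputable def pl : FiniteElement F →+* ℝ where
  toFun x := stdPart x.1
  map_one' := stdPart_one
  map_zero' := stdPart_zero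
  map_mul' x y := stdPart_mul x.2 y.2
  map_add' x y := stdPart_add x.2 y.2

variable {F}

lemma pl_apply (x : FiniteElement F) : pl F x = stdPart x.1 := rfl

lemma lt_zero_of_pl {x : FiniteElement F} (h : pl F x < 0) : x.1 < 0 := by
  by_contra hc
  rw [not_lt] at hc
  exact absurd (stdPart_nonneg hc) (not_le.2 h)

/-- the inclusion -/
noncomputable def inc : FiniteElement F →+* F := (addValuation F).toValuation.valuationSubring.subtype

lemma inc_apply (x : FiniteElement F) : inc x = x.1 := rfl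

/-- representatives close to `1` -/
lemma rep_near (hF : ∀ x : F, x ≠ 0 → ∃ f : F, f ≠ 0 ∧ ArchimedeanClass.mk (x * f ^ 2) = 0)
    {x : F} (hx : 0 < x) {U : Set ℝ} (hU : IsOpen U) (h1 : (1 : ℝ) ∈ U) :
    ∃ (c : FiniteElement F) (f : F), f ≠ 0 ∧ c.1 = x * f ^ 2 ∧ pl F c ∈ U := by
  obtain ⟨f, hf, hxf⟩ := hF x hx.ne'
  have hpos : 0 < x * f ^ 2 := by positivity
  have hs0 : stdPart (x * f ^ 2) ≠ 0 := fun h => (stdPart_eq_zero.1 h) hxf
  have hs : 0 < stdPart (x * f ^ 2) := lt_of_le_of_ne (stdPart_nonneg hpos.le) (Ne.symm hs0)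
  set r := stdPart (x * f ^ 2) with hr
  -- a rational number
  have hcont : Continuous (fun t : ℝ => r * t ^ 2) := by fun_prop
  have hV : IsOpen ((fun t : ℝ => r * t ^ 2) ⁻¹' U ∩ Set.Ioi 0) :=
    (hU.preimage hcont).inter isOpen_Ioi
  have hmem : (Real.sqrt r)⁻¹ ∈ (fun t : ℝ => r * t ^ 2) ⁻¹' U ∩ Set.Ioi 0 := by
    constructor
    · rw [Set.mem_preimage, inv_pow, Real.sq_sqrt hs.le, mul_inv_cancel₀ hs.ne']
      exact h1
    · exact inv_pos.2 (Real.sqrt_pos.2 hs)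
  obtain ⟨q, hq⟩ := Rat.denseRange_cast (𝕜 := ℝ).exists_mem_open hV ⟨_, hmem⟩
  obtain ⟨hq1, hq2⟩ := hq
  have hq0 : (q : F) ≠ 0 := by
    have : (0 : ℝ) < q := hq2
    have hq' : q ≠ 0 := by
      rintro rfl
      simp at this
    exact_mod_cast hq'
  have hfin : 0 ≤ ArchimedeanClass.mk (x * (f * q) ^ 2) := by
    have e : x * (f * q) ^ 2 = (x * f ^ 2) * ((q ^ 2 : ℚ) : F) := by push_cast; ring
    rw [e, ArchimedeanClass.mk_mul, hxf, zero_add]
    exact mk_ratCast_nonneg _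
  refine ⟨FiniteElement.mk (x * (f * q) ^ 2) hfin, f * q, mul_ne_zero hf hq0, rfl, ?_⟩
  change stdPart (x * (f * q) ^ 2) ∈ U
  have e : x * (f * q) ^ 2 = (x * f ^ 2) * ((q ^ 2 : ℚ) : F) := by push_cast; ring
  rw [e, stdPart_mul hxf.ge (mk_ratCast_nonneg _), stdPart_ratCast]
  push_cast
  exact hq1

/-- **The induction.** -/
theorem exists_poly (hF : ∀ x : F, x ≠ 0 → ∃ f : F, f ≠ 0 ∧ ArchimedeanClass.mk (x * f ^ 2) = 0)
    (s : Finset F) (hs : ∀ x ∈ s, 0 < x) :
    ∃ G : (FiniteElement F)[X], G.eval 0 = 1 ∧ pl F (G.eval 2) < 0 ∧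
      ∀ x ∈ s, ∃ (c : FiniteElement F) (f : F), f ≠ 0 ∧ c.1 = x * f ^ 2 ∧
        ∃ U V : (FiniteElement F)[X], G = U ^ 2 - C c * V ^ 2 := by
  classical
  have h2 : (2 : FiniteElement F) * FiniteElement.mk ((1 / 2 : ℚ) : F) (mk_ratCast_nonneg _) = 1 := by
    apply FiniteElement.ext
    have : (2 : F) * ((1 / 2 : ℚ) : F) = 1 := by
      push_cast
      norm_num
    exact this
  induction s using Finset.induction_on with
  | empty =>
    refine ⟨1 - X, by simp, ?_, by simp⟩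
    rw [eval_sub, eval_one, eval_X, map_sub, map_one, map_ofNat]
    norm_num
  | insert x s hxs ih =>
    obtain ⟨G, h0, hneg, hn⟩ := ih fun y hy => hs y (Finset.mem_insert_of_mem hy)
    have hopen : IsOpen ((gg (pl F) G) ⁻¹' Set.Iio 0) :=
      isOpen_Iio.preimage (gg_cont (pl F) G)
    have hone : (1 : ℝ) ∈ (gg (pl F) G) ⁻¹' Set.Iio 0 := by
      rw [Set.mem_preimage, gg_one, h0, map_one, mul_one]
      exact hneg
    obtain ⟨c, f, hf, hc, hcU⟩ := rep_near hF (hs x (Finset.mem_insert_self x s)) hopen hone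
    refine ⟨Nm (FiniteElement.mk ((1 / 2 : ℚ) : F) (mk_ratCast_nonneg _)) c G, ?_, ?_, ?_⟩
    · rw [Nm_eval_zero, h0, one_pow]
    · rw [gg_eq (pl F) G h2]
      exact hcU
    · intro y hy
      rcases Finset.mem_insert.1 hy with rfl | hy
      · exact ⟨c, f, hf, hc, _, _, rfl⟩
      · obtain ⟨c', f', h1, h3, U, V, h4⟩ := hn y hy
        obtain ⟨U', V', h5⟩ := Nm_of (FiniteElement.mk ((1 / 2 : ℚ) : F) (mk_ratCast_nonneg _)) c c' h4
        exact ⟨c', f', h1, h3, U', V', h5⟩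

/-- **A negative common norm.** -/
theorem exists_neg (hF : ∀ x : F, x ≠ 0 → ∃ f : F, f ≠ 0 ∧ ArchimedeanClass.mk (x * f ^ 2) = 0)
    (s : Finset F) (hs : ∀ x ∈ s, 0 < x) :
    ∃ y : F, y < 0 ∧ ∀ x ∈ s, ∃ u v : F, y = u ^ 2 - x * v ^ 2 := by
  obtain ⟨G, -, hneg, hn⟩ := exists_poly hF s hs
  refine ⟨(G.eval 2).1, lt_zero_of_pl hneg, ?_⟩
  intro x hx
  obtain ⟨c, f, hf, hc, U, V, h4⟩ := hn x hx
  refine ⟨(U.eval 2).1, f * (V.eval 2).1, ?_⟩
  have h5 : G.eval 2 = (U.eval 2) ^ 2 - c * (V.eval 2) ^ 2 := by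
    rw [h4, eval_sub, eval_mul, eval_pow, eval_pow, eval_C]
  have h6 := congrArg inc h5
  rw [map_sub, map_mul, map_pow, map_pow, inc_apply, inc_apply, inc_apply, inc_apply, hc] at h6
  rw [h6]
  ring

end

end Pool.Agent.V7H55.ET2
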