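import Mathlib
import Pool.Agent.V7H55.ET.Perp

set_option autoImplicit false

/-!
# Steinberg symbols, all primes
-/

namespace Pool.Agent.V7H55.ET2

open Pool.Agent.V7H55.ET
open Pool.Agent.Y920.EP (pwG nmG)

section

variable {p : ℕ} [Fact p.Prime] {F : Type} [Field F] {T : Subgroup Fˣ}

lemma neg_right {c : Fˣ → Fˣ → ZMod p} (h : c ∈ Sym p T) (a : Fˣ) : c a (-a) = 0 := by
  by_cases ha : a = 1
  · rw [ha]
    exact (Sym.isSymbol h).one_left _
  · have h1 : (1 : F) - a ≠ 0 := by
      intro h0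
      apply ha
      apply Units.ext
      rw [Units.val_one]
      linear_combination -h0
    have ha0 := a.ne_zero
    have h2 : (1 : F) - (a : F)⁻¹ ≠ 0 := by
      intro h0
      apply h1
      have : (1 : F) - a = - a * (1 - (a : F)⁻¹) := by field_simp; ring
      rw [this, h0, mul_zero]
    set u : Fˣ := Units.mk0 _ h1 with hu
    set v : Fˣ := Units.mk0 _ h2 with hv
    have e : u = -a * v := by
      apply Units.ext
      rw [Units.val_mul, Units.val_neg, hu, hv, Units.val_mk0, Units.val_mk0]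
      field_simp
      ring
    have h3 : c a u = 0 := h.2.2.1 a u (by rw [hu, Units.val_mk0]; ring)
    have h4 : c a⁻¹ v = 0 := h.2.2.1 a⁻¹ v (by
      rw [hv, Units.val_mk0, Units.val_inv_eq_inv_val]; ring)
    rw [(Sym.isSymbol h).inv_left, neg_eq_zero] at h4
    rw [e, h.2.1, h4, add_zero] at h3
    exact h3

lemma anti' {c : Fˣ → Fˣ → ZMod p} (h : c ∈ Sym p T) (a b : Fˣ) : c b a = - c a b := by
  have h1 := neg_right h (a * b)
  have e1 : c a (-(a * b)) = c a b := by
    rw [← neg_mul, h.2.1, neg_right h, zero_add]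
  have e2 : c b (-(a * b)) = c b a := by
    rw [← mul_neg, h.2.1, neg_right h, add_zero]
  rw [h.1, e1, e2] at h1
  linear_combination h1

lemma van_right' {c : Fˣ → Fˣ → ZMod p} (h : c ∈ Sym p T) {x : Fˣ}
    (hx : x ∈ T) (y : Fˣ) : c y x = 0 := by
  rw [anti' h x y, Sym.van h hx, neg_zero]

/-- the value depends on the classes only -/
lemma congr' {c : Fˣ → Fˣ → ZMod p} (h : c ∈ Sym p T) {x x' y y' : Fˣ}
    (hx : x⁻¹ * x' ∈ T) (hy : y⁻¹ * y' ∈ T) : c x' y' = c x y := by
  have e1 : x' = x * (x⁻¹ * x') := by rw [mul_inv_cancel_left]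
  have e2 : y' = y * (y⁻¹ * y') := by rw [mul_inv_cancel_left]
  rw [e1, h.1, Sym.van h hx, add_zero, e2, h.2.1, van_right' h hy, add_zero]

end

end Pool.Agent.V7H55.ET2
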