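import Mathlib
import Pool.Agent.V7H55.ET2.SymA

set_option autoImplicit false

/-!
# Norm groups of quadratic extensions, and statements for all primes
-/

open Polynomial

namespace Pool.Agent.V7H55.ET2

open Pool.Agent.V7H55.ET
open Pool.Agent.Y920.EP (pwG nmG)

section two

variable {F : Type} [Field F]

/-- norms from `F(√a)` -/
lemma mem_nm2 {a y : Fˣ} : y ∈ nmG 2 a ↔ ∃ u v : F, (y : F) = u ^ 2 - a * v ^ 2 := by
  have h2 : 0 < 2 := two_pos
  have hnorm : ∀ u v : F, Algebra.norm F (algebraMap F (AdjoinRoot (X ^ 2 - C (a : F))) u +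
      algebraMap F _ v * AdjoinRoot.root (X ^ 2 - C (a : F))) = u ^ 2 - a * v ^ 2 := by
    intro u v
    by_cases hv : v = 0
    · rw [hv, map_zero, zero_mul, add_zero, Pool.Agent.Y349.EP.norm_scalar h2]
      ring
    · have e : algebraMap F (AdjoinRoot (X ^ 2 - C (a : F))) u +
          algebraMap F _ v * AdjoinRoot.root (X ^ 2 - C (a : F)) =
          algebraMap F _ (-v) * (algebraMap F _ (-u / v) - AdjoinRoot.root (X ^ 2 - C (a : F))) := by
        have e1 : algebraMap F (AdjoinRoot (X ^ 2 - C (a : F))) u =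
            algebraMap F _ (-v) * algebraMap F _ (-u / v) := by
          rw [← map_mul]
          congr 1
          field_simp
        rw [mul_sub, ← e1, map_neg]
        ring
      rw [e, map_mul, Pool.Agent.Y349.EP.norm_scalar h2, Pool.Agent.Y349.EP.norm_sub_root h2]
      field_simp
  constructor
  · rintro ⟨z, hz⟩
    have hz' : Algebra.norm F (z : AdjoinRoot (X ^ 2 - C (a : F))) = (y : F) :=
      congrArg (fun u : Fˣ => (u : F)) hz
    obtain ⟨P, hP⟩ := AdjoinRoot.mk_surjective (z : AdjoinRoot (X ^ 2 - C (a : F)))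
    set Q := P %ₘ (X ^ 2 - C (a : F)) with hQ
    have hmon : (X ^ 2 - C (a : F)).Monic := monic_X_pow_sub_C _ two_ne_zero
    have hmkQ : AdjoinRoot.mk (X ^ 2 - C (a : F)) Q = (z : AdjoinRoot (X ^ 2 - C (a : F))) := by
      rw [← hP, AdjoinRoot.mk_eq_mk, hQ, modByMonic_eq_sub_mul_div, sub_sub_cancel_left]
      exact (dvd_neg.2 (dvd_mul_right _ _))
    have hdeg : Q.natDegree < 2 := by
      have h1 := natDegree_modByMonic_lt P hmon (by
        intro h
        have := congrArg natDegree h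
        rw [natDegree_X_pow_sub_C, natDegree_one] at this
        omega)
      rwa [natDegree_X_pow_sub_C] at h1
    have hQe : Q = C (Q.coeff 0) + C (Q.coeff 1) * X := by
      rw [add_comm]
      exact eq_X_add_C_of_natDegree_le_one (by omega)
    refine ⟨Q.coeff 0, Q.coeff 1, ?_⟩
    rw [← hnorm, ← hz', ← hmkQ]
    congr 1
    conv_lhs => rw [hQe]
    rw [map_add, map_mul, AdjoinRoot.mk_X, AdjoinRoot.mk_C, AdjoinRoot.mk_C]
    rfl
  · rintro ⟨u, v, h⟩
    set z := algebraMap F (AdjoinRoot (X ^ 2 - C (a : F))) u +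
      algebraMap F _ v * AdjoinRoot.root (X ^ 2 - C (a : F)) with hz
    set z' := algebraMap F (AdjoinRoot (X ^ 2 - C (a : F))) u -
      algebraMap F _ v * AdjoinRoot.root (X ^ 2 - C (a : F)) with hz'
    have h1 : z * z' = algebraMap F _ (y : F) := by
      rw [h, map_sub, map_mul, map_pow, map_pow, ← Pool.Agent.Y349.EP.root_pow (p := 2), hz, hz']
      ring
    have hu : IsUnit z := isUnit_of_dvd_unit (Dvd.intro z' h1) (y.isUnit.map _)
    refine ⟨hu.unit, Units.ext ?_⟩
    rw [Units.coe_map, IsUnit.unit_spec]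
    change Algebra.norm F z = (y : F)
    rw [hz, hnorm, h]

/-- norms from a ramified quadratic extension -/
lemma nm_ram2 {O : ValuationSubring F} {x : Fˣ} (hx : x ∉ O.unitGroup ⊔ pwG F 2) :
    nmG 2 x ≤ Subgroup.zpowers (-x) ⊔ near O (pwG F 2) := by
  intro y hy
  obtain ⟨u, v, h⟩ := mem_nm2.1 hy
  by_cases hu : u = 0
  · have hv : v ≠ 0 := by
      rintro rfl
      apply y.ne_zero
      rw [h, hu]
      ring
    have e : y = -x * (Units.mk0 v hv) ^ 2 := by
      apply Units.ext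
      rw [Units.val_mul, Units.val_neg, Units.val_pow_eq_pow_val, Units.val_mk0, h, hu]
      ring
    rw [e]
    exact Subgroup.mul_mem_sup (Subgroup.mem_zpowers _) (Subgroup.mem_sup_right ⟨_, rfl⟩)
  by_cases hv : v = 0
  · have e : y = (Units.mk0 u hu) ^ 2 := by
      apply Units.ext
      rw [Units.val_pow_eq_pow_val, Units.val_mk0, h, hv]
      ring
    rw [e]
    exact Subgroup.mem_sup_right (Subgroup.mem_sup_right ⟨_, rfl⟩)
  have hx0 := x.ne_zero
  have hxv : (x : F) * v ^ 2 ≠ 0 := mul_ne_zero hx0 (pow_ne_zero _ hv)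
  have hu2 : u ^ 2 ≠ 0 := pow_ne_zero _ hu
  have hne : O.valuation (u ^ 2) ≠ O.valuation (x * v ^ 2) := by
    intro hc
    apply hx
    have h1 : x * (Units.mk0 v hv / Units.mk0 u hu) ^ 2 ∈ O.unitGroup := by
      rw [ValuationSubring.mem_unitGroup_iff]
      have e : ((x * (Units.mk0 v hv / Units.mk0 u hu) ^ 2 : Fˣ) : F) = (x * v ^ 2) / u ^ 2 := by
        push_cast
        rw [Units.val_mk0, Units.val_mk0, div_pow]
        ring
      rw [e, map_div₀, ← hc, div_self ((Valuation.ne_zero_iff _).2 hu2)]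
    have h2 : ((Units.mk0 v hv / Units.mk0 u hu) ^ 2)⁻¹ ∈ pwG F 2 := inv_mem ⟨_, rfl⟩
    have h3 := Subgroup.mul_mem_sup h1 h2
    rwa [mul_inv_cancel_right] at h3
  rcases lt_or_gt_of_ne hne with hlt | hlt
  · -- `-x v²` dominates
    have h1 : y * (-x * (Units.mk0 v hv) ^ 2)⁻¹ ∈ near O (pwG F 2) := by
      apply mem_near
      have e : ((y * (-x * (Units.mk0 v hv) ^ 2)⁻¹ : Fˣ) : F) - 1 = - (u ^ 2 / (x * v ^ 2)) := by
        rw [Units.val_mul, Units.val_inv_eq_inv_val, Units.val_mul, Units.val_neg,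
          Units.val_pow_eq_pow_val, Units.val_mk0, h]
        field_simp
        ring
      rw [e, Valuation.map_neg, map_div₀]
      exact (div_lt_one₀ (zero_lt_iff.2 ((Valuation.ne_zero_iff _).2 hxv))).2 hlt
    have h2 : -x * (Units.mk0 v hv) ^ 2 ∈ Subgroup.zpowers (-x) ⊔ near O (pwG F 2) :=
      Subgroup.mul_mem_sup (Subgroup.mem_zpowers _) (Subgroup.mem_sup_right ⟨_, rfl⟩)
    have h3 := mul_mem (Subgroup.mem_sup_right h1 : _ ∈ Subgroup.zpowers (-x) ⊔ near O (pwG F 2)) h2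
    rwa [inv_mul_cancel_right] at h3
  · have h1 : y * ((Units.mk0 u hu) ^ 2)⁻¹ ∈ near O (pwG F 2) := by
      apply mem_near
      have e : ((y * ((Units.mk0 u hu) ^ 2)⁻¹ : Fˣ) : F) - 1 = - (x * v ^ 2 / u ^ 2) := by
        rw [Units.val_mul, Units.val_inv_eq_inv_val, Units.val_pow_eq_pow_val, Units.val_mk0, h]
        field_simp
        ring
      rw [e, Valuation.map_neg, map_div₀]
      exact (div_lt_one₀ (zero_lt_iff.2 ((Valuation.ne_zero_iff _).2 hu2))).2 hlt
    have h2 : (Units.mk0 u hu) ^ 2 ∈ near O (pwG F 2) := Subgroup.mem_sup_right ⟨_, rfl⟩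
    have h3 := mul_mem h1 h2
    rw [inv_mul_cancel_right] at h3
    exact Subgroup.mem_sup_right h3

end two

section all

variable {F : Type} [Field F] {p : ℕ}

lemma pw_mem_nm' (hp : p.Prime) {x y : Fˣ} (hx : x ∈ pwG F p) : x ∈ nmG p y := by
  by_cases hp2 : p = 2
  · subst hp2
    obtain ⟨f, rfl⟩ := hx
    rw [mem_nm2]
    exact ⟨f, 0, by change ((f ^ 2 : Fˣ) : F) = _; push_cast; ring⟩
  · exact pw_mem_nm hp hp2 hx

/-- symmetry -/
lemma nm_symm' (hp : p.Prime) {ζ : F} (hζ : IsPrimitiveRoot ζ p) {a b : Fˣ}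
    (ha : a ∉ pwG F p) (h : b ∈ nmG p a) (hb : b ∉ pwG F p) : a ∈ nmG p b := by
  by_cases hp2 : p = 2
  · subst hp2
    obtain ⟨u, v, h1⟩ := mem_nm2.1 h
    have hv : v ≠ 0 := by
      rintro rfl
      apply hb
      have hu : u ≠ 0 := by
        rintro rfl
        apply b.ne_zero
        rw [h1]
        ring
      exact ⟨Units.mk0 u hu, Units.ext (by
        change ((Units.mk0 u hu ^ 2 : Fˣ) : F) = b
        rw [Units.val_pow_eq_pow_val, Units.val_mk0, h1]
        ring)⟩
    rw [mem_nm2]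
    refine ⟨u / v, 1 / v, ?_⟩
    field_simp
    linear_combination h1
  · exact nm_symm hp hp2 hζ ha h hb

lemma le_nm_of_perp' (hp : p.Prime) {ζ : F} (hζ : IsPrimitiveRoot ζ p)
    {B : Subgroup Fˣ} {x : Fˣ} (hx : x ∈ perp p B) (hxp : x ∉ pwG F p) : B ≤ nmG p x := by
  intro c hc
  by_cases hcp : c ∈ pwG F p
  · exact pw_mem_nm' hp hcp
  · exact nm_symm' hp hζ hcp (hx c hc hcp) hxp

/-- `-x` for `p = 2`, `x` for odd `p` -/
lemma nm_ram' (hp : p.Prime) {ζ : F} (hζ : IsPrimitiveRoot ζ p) {O : ValuationSubring F} {x : Fˣ}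
    (hx : x ∉ O.unitGroup ⊔ pwG F p) : nmG p x ≤ Subgroup.zpowers (-x) ⊔ near O (pwG F p) := by
  by_cases hp2 : p = 2
  · subst hp2
    exact nm_ram2 hx
  · refine (nm_ram hp hp2 hζ hx).trans (sup_le ?_ le_sup_right)
    rw [Subgroup.zpowers_le]
    have h1 : (-1 : Fˣ) ∈ near O (pwG F p) := Subgroup.mem_sup_right ⟨-1, by
      have hodd : Odd p := hp.odd_of_ne_two hp2
      change (-1 : Fˣ) ^ p = -1
      exact hodd.neg_one_pow⟩
    have h2 := Subgroup.mul_mem_sup (Subgroup.mem_zpowers (-x)) h1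
    rwa [neg_mul_neg, mul_one] at h2

/-- **Orthogonality of different complements.** -/
theorem perp_le' (hp : p.Prime) {ζ : F} (hζ : IsPrimitiveRoot ζ p)
    {O₁ : ValuationSubring F} (h₁ : Adm p (pwG F p) O₁) {B₂ : Subgroup Fˣ}
    (htop : near O₁ (pwG F p) ⊔ B₂ = ⊤) (hidx : (near O₁ (pwG F p)).index ≠ p) :
    perp p B₂ ≤ near O₁ (pwG F p) := by
  have : Fact p.Prime := ⟨hp⟩
  intro y hy
  by_contra hyn
  have hyp : y ∉ pwG F p := fun h => hyn ((le_sup_right : pwG F p ≤ near O₁ (pwG F p)) h)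
  have hle := le_nm_of_perp' hp hζ hy hyp
  by_cases hyU : y ∈ O₁.unitGroup ⊔ pwG F p
  · obtain ⟨u, hu, t, ht, rfl⟩ := Subgroup.mem_sup.1 hyU
    have hun : u ∉ near O₁ (pwG F p) := fun h =>
      hyn (mul_mem h ((le_sup_right : pwG F p ≤ near O₁ (pwG F p)) ht))
    have h1 := nm_unr hp hζ hu hun
    have h2 : nmG p (u * t) = nmG p u := nmG_congr hp (by
      rw [mul_comm u t, mul_inv_cancel_right]
      exact ht)
    rw [h2] at hle
    apply h₁.ne_top
    rw [eq_top_iff, ← htop]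
    exact sup_le near_le_units (hle.trans h1)
  · have h1 := hle.trans (nm_ram' hp hζ hyU)
    have hneg : (-1 : Fˣ) ∈ O₁.unitGroup := by
      rw [ValuationSubring.mem_unitGroup_iff, Units.val_neg, Units.val_one, Valuation.map_neg,
        map_one]
    have hyn' : -y ∉ near O₁ (pwG F p) := by
      intro h
      apply hyU
      have h3 := mul_mem (near_le_units h) (Subgroup.mem_sup_left hneg : _ ∈ O₁.unitGroup ⊔ pwG F p)
      rwa [neg_mul_neg, mul_one] at h3
    have h2 : near O₁ (pwG F p) ⊔ Subgroup.zpowers (-y) = ⊤ := by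
      rw [eq_top_iff, ← htop, sup_comm (near O₁ _) (Subgroup.zpowers (-y))]
      exact sup_le le_sup_right h1
    have h3 : (near O₁ (pwG F p)).relIndex (near O₁ (pwG F p) ⊔ Subgroup.zpowers (-y)) = p :=
      relIndex_adj (le_sup_right : pwG F p ≤ near O₁ (pwG F p)) hyn'
    rw [h2, Subgroup.relIndex_top_right] at h3
    exact hidx h3

/-- norm residue symbols are Steinberg symbols -/
lemma NSym_sym [Fact p.Prime] {c : Fˣ → Fˣ → ZMod p} (h : c ∈ NSym p F) :
    c ∈ Sym p (pwG F p) := by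
  by_cases hp2 : p = 2
  · subst hp2
    obtain ⟨h1, h2, h3⟩ := h
    refine ⟨h1, h2, fun x y hxy => ?_, fun x hx y => bi_pow_left h1 hx y⟩
    by_cases hx : x ∈ pwG F 2
    · exact bi_pow_left h1 hx y
    · apply h3 x hx
      rw [mem_nm2]
      exact ⟨1, 1, by linear_combination hxy⟩
  · exact NSym.sym hp2 h

lemma NSym_perp_left [Fact p.Prime] {c : Fˣ → Fˣ → ZMod p} (h : c ∈ NSym p F)
    {B : Subgroup Fˣ} {b x : Fˣ} (hb : b ∈ B) (hx : x ∈ perp p B) : c x b = 0 := by
  rw [anti' (NSym_sym h) b x, NSym.perp_right h hb hx, neg_zero]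

end all

end Pool.Agent.V7H55.ET2
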