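import Mathlib
import Pool.Agent.V7H55.ET2.NmA

set_option autoImplicit false

/-!
# The decomposition of the symbols, all primes
-/

namespace Pool.Agent.V7H55.ET2

open Pool.Agent.V7H55.ET
open Pool.Agent.Y920.EP (pwG nmG)

section

variable {F : Type} [Field F] {p : ℕ} [Fact p.Prime] {B : Subgroup Fˣ}

/-- elements of `B ∩ B^⊥` -/
lemma rad_left (htop : B ⊔ perp p B = ⊤) {c : Fˣ → Fˣ → ZMod p} (hc : c ∈ NSym p F) {r : Fˣ}
    (hrA : r ∈ perp p B) (hrB : r ∈ B) (y : Fˣ) : c r y = 0 := by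
  obtain ⟨b, hb, a, ha, rfl⟩ := Subgroup.mem_sup.1 (show y ∈ B ⊔ perp p B by rw [htop]; trivial)
  rw [hc.2.1, NSym_perp_left hc hb hrA, NSym.perp_right hc hrB ha, add_zero]

lemma rad_right (htop : B ⊔ perp p B = ⊤) {c : Fˣ → Fˣ → ZMod p} (hc : c ∈ NSym p F) {r : Fˣ}
    (hrA : r ∈ perp p B) (hrB : r ∈ B) (y : Fˣ) : c y r = 0 := by
  rw [anti' (NSym_sym hc) r y, rad_left htop hc hrA hrB, neg_zero]

/-- independence of the choice -/
lemma choice_congr (htop : B ⊔ perp p B = ⊤) {c : Fˣ → Fˣ → ZMod p} (hc : c ∈ NSym p F)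
    {α : Fˣ → Fˣ} (hα1 : ∀ x, α x ∈ perp p B) (hα2 : ∀ x, x * (α x)⁻¹ ∈ B) (x y x' y' : Fˣ)
    (hx' : x' ∈ perp p B) (hy' : y' ∈ perp p B) (hxB : x * x'⁻¹ ∈ B) (hyB : y * y'⁻¹ ∈ B) :
    c (α x) (α y) = c x' y' := by
  have h1 : ∀ z z' : Fˣ, z' ∈ perp p B → z * z'⁻¹ ∈ B → α z * z'⁻¹ ∈ perp p B ∧
      α z * z'⁻¹ ∈ B := by
    intro z z' hz' hzB
    refine ⟨mul_mem (hα1 z) (inv_mem hz'), ?_⟩
    have h2 := mul_mem (inv_mem (hα2 z)) hzB
    have e : (z * (α z)⁻¹)⁻¹ * (z * z'⁻¹) = α z * z'⁻¹ := by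
      rw [mul_inv, inv_inv, mul_comm z⁻¹, mul_assoc, inv_mul_cancel_left]
    rwa [e] at h2
  obtain ⟨h2, h3⟩ := h1 x x' hx' hxB
  obtain ⟨h4, h5⟩ := h1 y y' hy' hyB
  have e1 : α x = α x * x'⁻¹ * x' := by rw [inv_mul_cancel_right]
  have e2 : α y = α y * y'⁻¹ * y' := by rw [inv_mul_cancel_right]
  rw [e1, hc.1, rad_left htop hc h2 h3, zero_add, e2, hc.2.1, rad_right htop hc h4 h5, zero_add]

lemma choice_mem {α : Fˣ → Fˣ} (hα2 : ∀ x, x * (α x)⁻¹ ∈ B) {z : Fˣ} (hz : z ∈ B) : α z ∈ B := by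
  have h2 := mul_mem (inv_mem (hα2 z)) hz
  have e : (z * (α z)⁻¹)⁻¹ * z = α z := by
    rw [mul_inv, inv_inv, mul_comm z⁻¹, inv_mul_cancel_right]
  rwa [e] at h2

/-- **The decomposition of the symbols.** -/
theorem split_gen (htop : B ⊔ perp p B = ⊤) {c : Fˣ → Fˣ → ZMod p} (hc : c ∈ NSym p F)
    (hst' : ∀ α : Fˣ → Fˣ, (∀ x, α x ∈ perp p B) → (∀ x, x * (α x)⁻¹ ∈ B) →
      ∀ x y : Fˣ, (x : F) + y = 1 → c (α x) (α y) = 0) :
    ∃ d ∈ Sym p B, c - d ∈ Sym p (perp p B) := by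
  have hp : p.Prime := Fact.out
  set A := perp p B with hA
  have hdec : ∀ x : Fˣ, ∃ a ∈ A, x * a⁻¹ ∈ B := by
    intro x
    have hx : x ∈ B ⊔ A := by rw [htop]; trivial
    obtain ⟨b, hb, a, ha, rfl⟩ := Subgroup.mem_sup.1 hx
    exact ⟨a, ha, by rwa [mul_inv_cancel_right]⟩
  choose α hα1 hα2 using hdec
  have hR1 : ∀ r, r ∈ A → r ∈ B → ∀ y, c r y = 0 := fun r hrA hrB y => rad_left htop hc hrA hrB y
  have hcongr : ∀ x y x' y' : Fˣ, x' ∈ A → y' ∈ A → x * x'⁻¹ ∈ B → y * y'⁻¹ ∈ B →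
      c (α x) (α y) = c x' y' := fun x y x' y' h1 h2 h3 h4 =>
    choice_congr htop hc hα1 hα2 x y x' y' h1 h2 h3 h4
  have hst : ∀ x y : Fˣ, (x : F) + y = 1 → c (α x) (α y) = 0 := hst' α hα1 hα2
  refine ⟨fun x y => c (α x) (α y), ⟨?_, ?_, ?_, ?_⟩, ⟨?_, ?_, ?_, ?_⟩⟩
  · intro a b x
    have h1 := hcongr (a * b) x (α a * α b) (α x) (mul_mem (hα1 a) (hα1 b)) (hα1 x) (by
      rw [mul_inv, mul_mul_mul_comm]
      exact mul_mem (hα2 a) (hα2 b)) (hα2 x)
    change c (α (a * b)) (α x) = c (α a) (α x) + c (α b) (α x)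
    rw [h1, hc.1]
  · intro x a b
    have h1 := hcongr x (a * b) (α x) (α a * α b) (hα1 x) (mul_mem (hα1 a) (hα1 b)) (hα2 x) (by
      rw [mul_inv, mul_mul_mul_comm]
      exact mul_mem (hα2 a) (hα2 b))
    change c (α x) (α (a * b)) = c (α x) (α a) + c (α x) (α b)
    rw [h1, hc.2.1]
  · exact hst
  · intro x hx y
    change c (α x) (α y) = 0
    have h1 : α x ∈ B := by
      have h2 := mul_mem (inv_mem (hα2 x)) hx
      have e : (x * (α x)⁻¹)⁻¹ * x = α x := by
        rw [mul_inv, inv_inv, mul_comm x⁻¹, inv_mul_cancel_right]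
      rwa [e] at h2
    exact hR1 _ (hα1 x) h1 _
  · intro a b x
    change c (a * b) x - c (α (a * b)) (α x) = c a x - c (α a) (α x) + (c b x - c (α b) (α x))
    have h1 := hcongr (a * b) x (α a * α b) (α x) (mul_mem (hα1 a) (hα1 b)) (hα1 x) (by
      rw [mul_inv, mul_mul_mul_comm]
      exact mul_mem (hα2 a) (hα2 b)) (hα2 x)
    rw [h1, hc.1, hc.1]
    ring
  · intro x a b
    change c x (a * b) - c (α x) (α (a * b)) = c x a - c (α x) (α a) + (c x b - c (α x) (α b))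
    have h1 := hcongr x (a * b) (α x) (α a * α b) (hα1 x) (mul_mem (hα1 a) (hα1 b)) (hα2 x) (by
      rw [mul_inv, mul_mul_mul_comm]
      exact mul_mem (hα2 a) (hα2 b))
    rw [h1, hc.2.1, hc.2.1]
    ring
  · intro x y hxy
    change c x y - c (α x) (α y) = 0
    rw [hst x y hxy, (NSym_sym hc).2.2.1 x y hxy, sub_zero]
  · intro x hx y
    change c x y - c (α x) (α y) = 0
    have h1 := hcongr x y x (α y) hx (hα1 y) (by rw [mul_inv_cancel]; exact one_mem _) (hα2 y)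
    have e : c x y = c x (y * (α y)⁻¹ * α y) := by rw [inv_mul_cancel_right]
    rw [h1, e, hc.2.1, NSym_perp_left hc (hα2 y) hx, zero_add, sub_self]

/-- the Steinberg relation for valuation rings -/
theorem split_val {O : ValuationSubring F}
    (htop : near O (pwG F p) ⊔ perp p (near O (pwG F p)) = ⊤) {c : Fˣ → Fˣ → ZMod p}
    (hc : c ∈ NSym p F) :
    ∃ d ∈ Sym p (near O (pwG F p)), c - d ∈ Sym p (perp p (near O (pwG F p))) := by
  have hp : p.Prime := Fact.out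
  set B := near O (pwG F p) with hB
  set A := perp p B with hA
  refine split_gen htop hc ?_
  intro α hα1 hα2 x y hxy
  have hpA : pwG F p ≤ A := fun x hx c _ _ => pw_mem_nm' hp hx
  have hR1 : ∀ r, r ∈ A → r ∈ B → ∀ y, c r y = 0 := fun r hrA hrB y => rad_left htop hc hrA hrB y
  have hcongr : ∀ x y x' y' : Fˣ, x' ∈ A → y' ∈ A → x * x'⁻¹ ∈ B → y * y'⁻¹ ∈ B →
      c (α x) (α y) = c x' y' := fun x y x' y' h1 h2 h3 h4 =>
    choice_congr htop hc hα1 hα2 x y x' y' h1 h2 h3 h4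
  have hone : ∀ u : Fˣ, O.valuation ((u : F) - 1) < 1 → u ∈ B := fun u hu => mem_near hu
  have hBl : ∀ z : Fˣ, z ∈ B → ∀ w, c (α z) w = 0 := fun z hz w =>
    hR1 _ (hα1 z) (choice_mem hα2 hz) w
  rcases lt_trichotomy (O.valuation (x : F)) 1 with h | h | h
  · -- `y` is close to `1`
    have h1 : y ∈ B := hone y (by
      have e : (y : F) - 1 = -x := by linear_combination hxy
      rw [e, Valuation.map_neg]
      exact h)
    rw [anti' (NSym_sym hc) (α y) (α x), hBl y h1, neg_zero]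
  · rcases lt_or_eq_of_le (show O.valuation (y : F) ≤ 1 by
      have e : (y : F) = 1 - x := by linear_combination hxy
      rw [e]
      exact (Valuation.map_sub _ _ _).trans (max_le (by rw [map_one]) h.le)) with h' | h'
    · have h1 : x ∈ B := hone x (by
        have e : (x : F) - 1 = -y := by linear_combination hxy
        rw [e, Valuation.map_neg]
        exact h')
      exact hBl x h1 _
    · -- both are units: change `x` by an element of `1 + m`
      obtain ⟨u, hu, t, ht, hut⟩ := Subgroup.mem_sup.1 (show x * (α x)⁻¹ ∈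
        O.principalUnitGroup ⊔ pwG F p from hα2 x)
      -- `x u⁻¹ ∈ A`
      have hxA : x * u⁻¹ ∈ A := by
        have e : x * u⁻¹ = t * α x := by
          calc x * u⁻¹ = (x * (α x)⁻¹) * α x * u⁻¹ := by rw [inv_mul_cancel_right]
            _ = u * t * α x * u⁻¹ := by rw [← hut]
            _ = t * α x := by rw [mul_assoc u t, mul_comm u, mul_inv_cancel_right]
        rw [e]
        exact mul_mem (hpA ht) (hα1 x)
      have hu' : O.valuation (((u⁻¹ : Fˣ) : F) - 1) < 1 := by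
        have h1 : u⁻¹ ∈ O.principalUnitGroup := inv_mem hu
        rwa [ValuationSubring.mem_principalUnitGroup_iff] at h1
      have hd : O.valuation ((x : F) - ((x * u⁻¹ : Fˣ) : F)) < 1 := by
        have e : (x : F) - ((x * u⁻¹ : Fˣ) : F) = - (x * (((u⁻¹ : Fˣ) : F) - 1)) := by
          push_cast; ring
        rw [e, Valuation.map_neg, map_mul, h, one_mul]
        exact hu'
      have hy0 := y.ne_zero
      have hvy0 : O.valuation (y : F) ≠ 0 := (Valuation.ne_zero_iff _).2 hy0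
      -- `y' = 1 - x u⁻¹`
      have hyd : O.valuation ((1 - ((x * u⁻¹ : Fˣ) : F)) / y - 1) < 1 := by
        have e : (1 - ((x * u⁻¹ : Fˣ) : F)) / y - 1 = ((x : F) - ((x * u⁻¹ : Fˣ) : F)) / y := by
          rw [div_sub_one hy0]
          congr 1
          linear_combination -hxy
        rw [e, map_div₀, h', div_one]
        exact hd
      have hy'0 : 1 - ((x * u⁻¹ : Fˣ) : F) ≠ 0 := by
        intro h0
        rw [h0, zero_div, zero_sub, Valuation.map_neg, map_one] at hyd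
        exact lt_irrefl _ hyd
      set y' : Fˣ := Units.mk0 _ hy'0 with hy'
      have hyy : y' * y⁻¹ ∈ B := hone _ (by
        have e : ((y' * y⁻¹ : Fˣ) : F) - 1 = (1 - ((x * u⁻¹ : Fˣ) : F)) / y - 1 := by
          rw [Units.val_mul, Units.val_inv_eq_inv_val, hy', Units.val_mk0, div_eq_mul_inv]
        rw [e]
        exact hyd)
      have h1 : c (x * u⁻¹) y' = 0 := (NSym_sym hc).2.2.1 _ _ (by
        rw [hy', Units.val_mk0]; ring)
      -- compare
      have h2 : c (α x) (α y) = c (x * u⁻¹) (α y') := by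
        refine hcongr x y (x * u⁻¹) (α y') hxA (hα1 y') ?_ ?_
        · rw [mul_inv, inv_inv, mul_inv_cancel_left]
          exact Subgroup.mem_sup_left hu
        · have h3 := mul_mem (inv_mem hyy) (hα2 y')
          have e : (y' * y⁻¹)⁻¹ * (y' * (α y')⁻¹) = y * (α y')⁻¹ := by
            rw [mul_inv, inv_inv, mul_comm y'⁻¹, mul_assoc, inv_mul_cancel_left]
          rwa [e] at h3
      rw [h2]
      have e : y' = y' * (α y')⁻¹ * α y' := by rw [inv_mul_cancel_right]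
      rw [e, hc.2.1, NSym_perp_left hc (hα2 y') hxA, zero_add] at h1
      exact h1
  · -- `y` is close to `-x`
    have hx0 := x.ne_zero
    have h1 : -(y * x⁻¹) ∈ B := hone _ (by
      have e : ((-(y * x⁻¹) : Fˣ) : F) - 1 = - (x : F)⁻¹ := by
        rw [Units.val_neg, Units.val_mul, Units.val_inv_eq_inv_val]
        field_simp
        linear_combination -hxy
      rw [e, Valuation.map_neg, map_inv₀]
      exact inv_lt_one_of_one_lt₀ h)
    -- `α y = -α x e`, `e ∈ B`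
    have h2 : (-α x)⁻¹ * α y ∈ B := by
      have h3 := mul_mem (mul_mem h1 (hα2 x)) (inv_mem (hα2 y))
      have e : -(y * x⁻¹) * (x * (α x)⁻¹) * (y * (α y)⁻¹)⁻¹ = (-α x)⁻¹ * α y := by
        rw [mul_inv, inv_inv, inv_neg, neg_mul, neg_mul, neg_mul]
        congr 1
        rw [mul_assoc y, inv_mul_cancel_left, mul_mul_mul_comm, mul_inv_cancel, one_mul]
      rwa [e] at h3
    have e : α y = -α x * ((-α x)⁻¹ * α y) := by rw [mul_inv_cancel_left]
    rw [e, hc.2.1, neg_right (NSym_sym hc), zero_add, NSym_perp_left hc h2 (hα1 x)]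

end

end Pool.Agent.V7H55.ET2
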