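import Mathlib
import Pool.Agent.V7H55.ET2.SplitA
import Pool.Agent.V7H55.ET2.Real

set_option autoImplicit false

/-!
# Orderings
-/

namespace Pool.Agent.V7H55.ET2

open Pool.Agent.V7H55.ET
open Pool.Agent.Y920.EP (pwG nmG)
open Pool.Agent.Y232.EP (of_lt_one)

section

variable {F : Type} [Field F]

/-- `P` is the group of the positive elements of an ordering of `F` -/
def IsCone (P : Subgroup Fˣ) : Prop :=
  ∃ (_ : LinearOrder F) (_ : IsStrictOrderedRing F), ∀ x : Fˣ, x ∈ P ↔ (0 : F) < x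

variable {P : Subgroup Fˣ}

lemma IsCone.pw_le (h : IsCone P) : pwG F 2 ≤ P := by
  obtain ⟨_, _, h⟩ := h
  rintro _ ⟨f, rfl⟩
  rw [h]
  change (0 : F) < ((f ^ 2 : Fˣ) : F)
  have := f.ne_zero
  rw [Units.val_pow_eq_pow_val]
  positivity

lemma IsCone.neg_one (h : IsCone P) : (-1 : Fˣ) ∉ P := by
  obtain ⟨_, _, h⟩ := h
  rw [h, Units.val_neg, Units.val_one, not_lt]
  linarith [zero_lt_one (α := F)]

lemma IsCone.ne_top (h : IsCone P) : P ≠ ⊤ := fun h1 => h.neg_one (by rw [h1]; trivial)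

lemma IsCone.total (h : IsCone P) (x : Fˣ) : x ∈ P ∨ -x ∈ P := by
  obtain ⟨_, _, h⟩ := h
  rw [h, h, Units.val_neg, neg_pos]
  exact (lt_or_gt_of_ne x.ne_zero).symm

lemma IsCone.mul_neg (h : IsCone P) {x y : Fˣ} (hx : x ∉ P) (hy : y ∉ P) : x * y ∈ P := by
  have h1 := (h.total x).resolve_left hx
  have h2 := (h.total y).resolve_left hy
  have h3 := mul_mem h1 h2
  rwa [neg_mul_neg] at h3

lemma IsCone.sup (h : IsCone P) {B : Subgroup Fˣ} (hB : ¬ B ≤ P) : P ⊔ B = ⊤ := by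
  obtain ⟨b, hb, hbP⟩ := Set.not_subset.1 hB
  rw [eq_top_iff]
  intro x _
  by_cases hx : x ∈ P
  · exact Subgroup.mem_sup_left hx
  · have h1 : b⁻¹ ∉ P := fun h1 => hbP (by rw [← inv_inv b]; exact inv_mem h1)
    have h2 := Subgroup.mul_mem_sup (h.mul_neg hx h1) hb
    rwa [inv_mul_cancel_right] at h2

/-- elements orthogonal to a group which is not positive are positive -/
lemma IsCone.perp_le (h : IsCone P) {B : Subgroup Fˣ} (hB : ¬ B ≤ P) : perp 2 B ≤ P := by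
  intro y hy
  by_contra hyP
  apply hB
  intro c hc
  by_cases hcp : c ∈ pwG F 2
  · exact h.pw_le hcp
  obtain ⟨u, v, huv⟩ := mem_nm2.1 (hy c hc hcp)
  obtain ⟨_, _, h⟩ := h
  rw [h] at hyP ⊢
  rw [not_lt] at hyP
  by_contra hc0
  rw [not_lt] at hc0
  have hc1 : (c : F) < 0 := lt_of_le_of_ne hc0 c.ne_zero
  have hy1 : (y : F) < 0 := lt_of_le_of_ne hyP y.ne_zero
  nlinarith [sq_nonneg u, sq_nonneg v, mul_nonneg (neg_nonneg.2 hc0) (sq_nonneg v)]

/-- the Steinberg relation -/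
theorem IsCone.split (h : IsCone P) (htop : P ⊔ perp 2 P = ⊤) {c : Fˣ → Fˣ → ZMod 2}
    (hc : c ∈ NSym 2 F) : ∃ d ∈ Sym 2 P, c - d ∈ Sym 2 (perp 2 P) := by
  have : Fact (Nat.Prime 2) := ⟨Nat.prime_two⟩
  refine split_gen htop hc ?_
  intro α hα1 hα2 x y hxy
  by_cases hx : x ∈ P
  · exact rad_left htop hc (hα1 x) (choice_mem hα2 hx) _
  · have hy : y ∈ P := by
      obtain ⟨_, _, h⟩ := h
      rw [h] at hx ⊢
      rw [not_lt] at hx
      have : (y : F) = 1 - x := by linear_combination hxy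
      rw [this]
      linarith [zero_lt_one (α := F)]
    exact rad_right htop hc (hα1 y) (choice_mem hα2 hy) _

/-- **The complement of an ordering.** -/
theorem IsCone.sup_perp (h : IsCone P) (hfin : (pwG F 2).index ≠ 0)
    (hmin : ∀ O : ValuationSubring F, Adm 2 (pwG F 2) O → ¬ near O (pwG F 2) ≤ P) :
    P ⊔ perp 2 P = ⊤ := by
  have hc := h
  obtain ⟨o₁, o₂, h⟩ := h
  set O : ValuationSubring F := (ArchimedeanClass.addValuation F).toValuation.valuationSubring with hO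
  have hmem : ∀ x : F, x ∈ O ↔ 0 ≤ ArchimedeanClass.mk x := fun x => Iff.rfl
  have hnear : near O (pwG F 2) ≤ P := by
    refine sup_le ?_ hc.pw_le
    intro u hu
    rw [ValuationSubring.mem_principalUnitGroup_iff] at hu
    rw [h]
    by_cases h0 : (u : F) - 1 = 0
    · have : (u : F) = 1 := by linear_combination h0
      rw [this]
      exact zero_lt_one
    · have h1 := of_lt_one h0 hu
      rw [hmem, not_le, ← ArchimedeanClass.mk_one] at h1
      have h4 := ArchimedeanClass.mk_lt_mk.1 h1 1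
      rw [one_smul, abs_one, abs_inv] at h4
      have h5 : |(u : F) - 1| < 1 := (one_lt_inv₀ (abs_pos.2 h0)).1 h4
      rw [abs_lt] at h5
      linarith [h5.1]
  have htop : O.unitGroup ⊔ pwG F 2 = ⊤ := by
    by_contra hne
    refine hmin O ⟨?_, hne⟩ hnear
    rw [hmem]
    have h1 : ((2 : ℕ) : F)⁻¹ = ((1 / 2 : ℚ) : F) := by push_cast; norm_num
    rw [h1]
    exact ArchimedeanClass.mk_ratCast_nonneg _
  have hF : ∀ x : F, x ≠ 0 → ∃ f : F, f ≠ 0 ∧ ArchimedeanClass.mk (x * f ^ 2) = 0 := by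
    intro x hx
    obtain ⟨u, hu, t, ⟨g, rfl⟩, e⟩ := Subgroup.mem_sup.1
      (show Units.mk0 x hx ∈ O.unitGroup ⊔ pwG F 2 by rw [htop]; trivial)
    refine ⟨((g⁻¹ : Fˣ) : F), Units.ne_zero _, ?_⟩
    have e1 : x * ((g⁻¹ : Fˣ) : F) ^ 2 = u := by
      have e2 : Units.mk0 x hx * g⁻¹ ^ 2 = u := by
        rw [← e]
        change u * g ^ 2 * g⁻¹ ^ 2 = u
        rw [inv_pow, mul_inv_cancel_right]
      have := congrArg (fun z : Fˣ => (z : F)) e2
      simpa using this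
    rw [e1]
    have h1 : (u : F) ∈ O := (O.valuation_le_one_iff _).1 (le_of_eq hu)
    have h2 : ((u⁻¹ : Fˣ) : F) ∈ O := (O.valuation_le_one_iff _).1
      (le_of_eq (inv_mem hu : u⁻¹ ∈ O.unitGroup))
    rw [hmem] at h1 h2
    have h3 : ArchimedeanClass.mk (u : F) + ArchimedeanClass.mk ((u⁻¹ : Fˣ) : F) = 0 := by
      rw [← ArchimedeanClass.mk_mul, ← Units.val_mul, mul_inv_cancel, Units.val_one,
        ArchimedeanClass.mk_one]
    refine le_antisymm ?_ h1
    rw [← h3]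
    exact le_add_of_nonneg_right h2
  have hfi : (pwG F 2).FiniteIndex := ⟨hfin⟩
  have hfq : Finite (Fˣ ⧸ pwG F 2) := inferInstance
  have hft : Fintype (Fˣ ⧸ pwG F 2) := Fintype.ofFinite _
  classical
  set s : Finset F := (Finset.univ.image fun q : Fˣ ⧸ pwG F 2 => ((q.out : Fˣ) : F)).filter
    (fun x => 0 < x) with hs
  obtain ⟨y, hy, hn⟩ := exists_neg hF s (fun x hx => (Finset.mem_filter.1 hx).2)
  have hyP : Units.mk0 y hy.ne ∈ perp 2 P := by
    intro c hcP _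
    set q : Fˣ ⧸ pwG F 2 := QuotientGroup.mk c with hq
    have h1 : q.out⁻¹ * c ∈ pwG F 2 := by
      rw [← QuotientGroup.eq, QuotientGroup.out_eq']
    have h2 : q.out ∈ P := by
      have e : q.out = c * (q.out⁻¹ * c)⁻¹ := by
        rw [mul_inv, inv_inv, mul_comm q.out, mul_inv_cancel_left]
      rw [e]
      exact mul_mem hcP (inv_mem (hc.pw_le h1))
    obtain ⟨u, v, huv⟩ := hn (q.out : Fˣ) (by
      rw [hs, Finset.mem_filter]
      exact ⟨Finset.mem_image_of_mem _ (Finset.mem_univ q), (h _).1 h2⟩)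
    have h3 : Units.mk0 y hy.ne ∈ nmG 2 (q.out : Fˣ) := mem_nm2.2 ⟨u, v, huv⟩
    rwa [nmG_congr Nat.prime_two (c := q.out) (c' := c) (by rwa [mul_comm])]
  refine hc.sup fun h1 => ?_
  have h2 := (h _).1 (h1 hyP)
  rw [Units.val_mk0] at h2
  exact lt_asymm h2 hy

end

end Pool.Agent.V7H55.ET2
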