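import Mathlib
import Pool.Agent.V7H55.ET2.Cone
import Pool.Agent.V7H55.ET.Fin

set_option autoImplicit false

/-!
# Decompositions, all primes
-/

namespace Pool.Agent.V7H55.ET2

open Pool.Agent.V7H55.ET
open Pool.Agent.Y920.EP (pwG nmG)

section

variable {F : Type} [Field F] {p : ℕ}

variable (F p) in
/-- the groups `(1 + m) F*^p` for admissible valuation rings, and, if `p = 2`, the groups of the
positive elements of the orderings -/
def LG : Set (Subgroup Fˣ) :=
  {B | (∃ O : ValuationSubring F, Adm p (pwG F p) O ∧ near O (pwG F p) = B) ∨ (p = 2 ∧ IsCone B)}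

variable (F p) in
/-- the minimal ones -/
def MG : Set (Subgroup Fˣ) := {B | B ∈ LG F p ∧ ∀ B' ∈ LG F p, B' ≤ B → B' = B}

variable {B B' : Subgroup Fˣ}

lemma LG.pw_le (h : B ∈ LG F p) : pwG F p ≤ B := by
  rcases h with ⟨O, -, rfl⟩ | ⟨rfl, h⟩
  · exact le_sup_right
  · exact h.pw_le

lemma LG.ne_top (h : B ∈ LG F p) : B ≠ ⊤ := by
  rcases h with ⟨O, h, rfl⟩ | ⟨rfl, h⟩
  · exact near_ne_top h
  · exact h.ne_top

lemma finite_LG (hfin : (pwG F p).index ≠ 0) : (LG F p).Finite := by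
  have : (pwG F p).FiniteIndex := ⟨hfin⟩
  have h1 : Finite (Fˣ ⧸ pwG F p) := inferInstance
  have h2 : Finite (Subgroup (Fˣ ⧸ pwG F p)) := inferInstance
  refine Set.Finite.of_finite_image
    (f := fun B : Subgroup Fˣ => B.map (QuotientGroup.mk' (pwG F p))) (Set.toFinite _) ?_
  intro B hB B' hB' h
  have h3 : ∀ B : Subgroup Fˣ, pwG F p ≤ B → (B.map (QuotientGroup.mk' (pwG F p))).comap
      (QuotientGroup.mk' (pwG F p)) = B := fun B hB =>
    Subgroup.comap_map_eq_self (by rw [QuotientGroup.ker_mk']; exact hB)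
  rw [← h3 B (LG.pw_le hB), ← h3 B' (LG.pw_le hB')]
  exact congrArg (Subgroup.comap (QuotientGroup.mk' (pwG F p))) h

lemma finite_MG (hfin : (pwG F p).index ≠ 0) : (MG F p).Finite :=
  (finite_LG hfin).subset fun _ h => h.1

lemma exists_MG (hfin : (pwG F p).index ≠ 0) (hB : B ∈ LG F p) : ∃ B' ∈ MG F p, B' ≤ B := by
  obtain ⟨B', h1, h2⟩ := (finite_LG hfin).exists_le_minimal hB
  exact ⟨B', ⟨h2.prop, fun B'' h3 h4 => le_antisymm h4 (h2.le_of_le h3 h4)⟩, h1⟩

lemma MG.mini {O : ValuationSubring F} (hO : Adm p (pwG F p) O)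
    (h : near O (pwG F p) ∈ MG F p) : Mini p (pwG F p) O :=
  ⟨hO, fun O' h1 h2 => h.2 _ (Or.inl ⟨O', h1, rfl⟩) h2⟩

/-- **The complement.** -/
theorem MG.sup_perp (hp : p.Prime) {ζ : F} (hζ : IsPrimitiveRoot ζ p)
    (hfin : (pwG F p).index ≠ 0) (h : B ∈ MG F p) : B ⊔ perp p B = ⊤ := by
  have h0 := h
  obtain ⟨h1, h2⟩ := h
  rcases h1 with ⟨O, hO, rfl⟩ | ⟨rfl, hc⟩
  · exact V7H55.ET.sup_perp hp hζ hfin (MG.mini hO h0).tight
  · refine hc.sup_perp hfin ?_
    intro O hO hle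
    have h3 := h2 _ (Or.inl ⟨O, hO, rfl⟩) hle
    -- `-1` is a unit
    have hneg : (-1 : Fˣ) ∈ O.unitGroup ⊔ pwG F 2 := Subgroup.mem_sup_left (by
      rw [ValuationSubring.mem_unitGroup_iff, Units.val_neg, Units.val_one, Valuation.map_neg,
        map_one])
    have h4 : O.unitGroup ⊔ pwG F 2 ≤ B := by
      by_contra h5
      apply hO.ne_top
      rw [eq_top_iff, ← hc.sup h5]
      refine sup_le ?_ le_rfl
      rw [← h3]
      exact near_le_units
    exact hc.neg_one (h4 hneg)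

theorem MG.sup (h : B ∈ MG F p) (h' : B' ∈ MG F p) (hne : B' ≠ B) : B ⊔ B' = ⊤ := by
  have h1 : ¬ B' ≤ B := fun h1 => hne (h.2 _ h'.1 h1)
  have h2 : ¬ B ≤ B' := fun h1 => hne (h'.2 _ h.1 h1).symm
  rcases h.1 with ⟨O, hO, hOB⟩ | ⟨h3, hc⟩
  · rcases h'.1 with ⟨O', hO', hOB'⟩ | ⟨h3, hc⟩
    · subst hOB
      subst hOB'
      exact sup_near (MG.mini hO h) (MG.mini hO' h') hne.symm
    · rw [sup_comm]
      exact hc.sup h2
  · exact hc.sup h1

theorem MG.perp_le (hp : p.Prime) {ζ : F} (hζ : IsPrimitiveRoot ζ p) (h : B ∈ MG F p)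
    (h' : B' ∈ MG F p) (hne : B' ≠ B) (hidx : B.index ≠ p ∨ -1 ∉ B) : perp p B' ≤ B := by
  have htop := MG.sup h h' hne
  rcases h.1 with ⟨O, hO, hOB⟩ | ⟨rfl, hc⟩
  · subst hOB
    by_cases hi : (near O (pwG F p)).index = p
    · rcases hidx with hidx | hidx
      · exact absurd hi hidx
      · exfalso
        -- the index is a prime number
        have h1 : near O (pwG F p) ≤ O.unitGroup ⊔ pwG F p := near_le_units
        have h2 := Subgroup.relIndex_mul_index h1
        rw [hi] at h2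
        have h3 : (O.unitGroup ⊔ pwG F p).index ∣ p := Dvd.intro_left _ h2
        rcases (Nat.dvd_prime hp).1 h3 with h4 | h4
        · exact hO.ne_top (Subgroup.index_eq_one.1 h4)
        · rw [h4] at h2
          have h5 : (near O (pwG F p)).relIndex (O.unitGroup ⊔ pwG F p) = 1 :=
            Nat.eq_of_mul_eq_mul_right hp.pos (by rw [h2, one_mul])
          apply hidx
          apply Subgroup.relIndex_eq_one.1 h5
          refine Subgroup.mem_sup_left ?_
          rw [ValuationSubring.mem_unitGroup_iff, Units.val_neg, Units.val_one, Valuation.map_neg,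
            map_one]
    · exact perp_le' hp hζ hO htop hi
  · exact hc.perp_le fun h1 => hne (h.2 _ h'.1 h1)

theorem MG.split [Fact p.Prime] {ζ : F} (hζ : IsPrimitiveRoot ζ p) (hfin : (pwG F p).index ≠ 0)
    (h : B ∈ MG F p) {c : Fˣ → Fˣ → ZMod p} (hc : c ∈ NSym p F) :
    ∃ d ∈ Sym p B, c - d ∈ Sym p (perp p B) := by
  have hp : p.Prime := Fact.out
  have htop := MG.sup_perp hp hζ hfin h
  rcases h.1 with ⟨O, hO, hOB⟩ | ⟨rfl, hcone⟩
  · subst hOB
    exact split_val htop hc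
  · exact hcone.split htop hc

/-- no symbols on cyclic groups -/
lemma Sym_index_p [Fact p.Prime] {T : Subgroup Fˣ} (hT : pwG F p ≤ T)
    (hidx : T.index = p) (hneg : -1 ∈ T) {c : Fˣ → Fˣ → ZMod p} (hc : c ∈ Sym p T) : c = 0 := by
  by_cases hp2 : p = 2
  · subst hp2
    funext x y
    change c x y = 0
    by_cases hx : x ∈ T
    · exact Sym.van hc hx y
    by_cases hy : y ∈ T
    · exact van_right' hc hy x
    have h1 : x⁻¹ * y ∈ T := by
      rw [Subgroup.mul_mem_iff_of_index_two hidx, inv_mem_iff]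
      exact ⟨fun h => absurd h hx, fun h => absurd h hy⟩
    have h2 : x⁻¹ * (-x) ∈ T := by
      rw [mul_neg, inv_mul_cancel]
      exact hneg
    have h3 : (-x)⁻¹ * y ∈ T := by
      have h4 := mul_mem (inv_mem h2) h1
      have e : (x⁻¹ * -x)⁻¹ * (x⁻¹ * y) = (-x)⁻¹ * y := by
        rw [mul_inv, inv_inv, mul_comm x, mul_assoc, mul_inv_cancel_left]
      rwa [e] at h4
    have h5 : c x y = c x (-x) := congr' hc (by rw [inv_mul_cancel]; exact one_mem _) h3
    rw [h5, neg_right hc]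
  · exact Sym.index_p hp2 hT hidx hc

/-- symbols vanishing on `B` vanish on the complements of the other groups -/
lemma Sym_of_MG [Fact p.Prime] {ζ : F} (hζ : IsPrimitiveRoot ζ p)
    (hB : B ∈ MG F p) (hB' : B' ∈ MG F p) (hne : B' ≠ B)
    {c : Fˣ → Fˣ → ZMod p} (hc : c ∈ Sym p B) {x : Fˣ} (hx : x ∈ perp p B') (y : Fˣ) :
    c x y = 0 := by
  have hp : p.Prime := Fact.out
  by_cases hidx : B.index ≠ p ∨ -1 ∉ B
  · exact Sym.van hc (MG.perp_le hp hζ hB hB' hne hidx hx) y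
  · push Not at hidx
    rw [Sym_index_p (LG.pw_le hB.1) hidx.1 hidx.2 hc]
    rfl

/-- **The decomposition of `K₂/p`.** -/
theorem split_all' [Fact p.Prime] {ζ : F} (hζ : IsPrimitiveRoot ζ p)
    (hfin : (pwG F p).index ≠ 0) (s : Finset (Subgroup Fˣ)) (hs : ∀ B, B ∈ s ↔ B ∈ MG F p)
    {c : Fˣ → Fˣ → ZMod p} (hc : c ∈ NSym p F) :
    ∃ d : Subgroup Fˣ → Fˣ → Fˣ → ZMod p, (∀ B ∈ s, d B ∈ Sym p B) ∧
      c - ∑ B ∈ s, d B ∈ Sym p (pwG F p ⊔ ⨆ B ∈ s, perp p B) := by
  classical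
  have h1 : ∀ B ∈ s, ∃ d ∈ Sym p B, c - d ∈ Sym p (perp p B) := by
    intro B hB
    exact MG.split hζ hfin ((hs B).1 hB) hc
  let d : Subgroup Fˣ → Fˣ → Fˣ → ZMod p := fun B => if h : B ∈ s then (h1 B h).choose else 0
  have hd1 : ∀ B ∈ s, d B ∈ Sym p B := by
    intro B hB
    simp only [d, dif_pos hB]
    exact (h1 B hB).choose_spec.1
  have hd2 : ∀ B ∈ s, c - d B ∈ Sym p (perp p B) := by
    intro B hB
    simp only [d, dif_pos hB]
    exact (h1 B hB).choose_spec.2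
  have hle : ∀ B ∈ s, Sym p B ≤ Sym p (pwG F p) := by
    intro B hB e he
    exact ⟨he.1, he.2.1, he.2.2.1, fun x hx y => he.2.2.2 x (LG.pw_le ((hs B).1 hB).1 hx) y⟩
  have hmem : c - ∑ B ∈ s, d B ∈ Sym p (pwG F p) :=
    (Sym p (pwG F p)).sub_mem (NSym_sym hc)
      ((Sym p (pwG F p)).sum_mem fun B hB => hle B hB (hd1 B hB))
  refine ⟨d, hd1, hmem.1, hmem.2.1, hmem.2.2.1, ?_⟩
  -- the elements on the left of which it vanishes
  let S : Subgroup Fˣ :=
    { carrier := {x | ∀ y, (c - ∑ B ∈ s, d B) x y = 0}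
      mul_mem' := fun {x x'} hx hx' y => by rw [hmem.1, hx, hx', add_zero]
      one_mem' := fun y => (Sym.isSymbol hmem).one_left y
      inv_mem' := fun {x} hx y => by rw [(Sym.isSymbol hmem).inv_left, hx, neg_zero] }
  have hS : pwG F p ⊔ ⨆ B ∈ s, perp p B ≤ S := by
    refine sup_le (fun x hx y => Sym.van hmem hx y) (iSup₂_le fun B hB x hx y => ?_)
    have h2 : (c - ∑ B ∈ s, d B) = (c - d B) - ∑ B' ∈ s.erase B, d B' := by
      rw [← Finset.add_sum_erase s d hB, sub_sub]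
    rw [h2]
    change (c - d B) x y - (∑ B' ∈ s.erase B, d B') x y = 0
    rw [Sym.van (hd2 B hB) hx, Finset.sum_apply, Finset.sum_apply, zero_sub, neg_eq_zero]
    refine Finset.sum_eq_zero fun B' hB' => ?_
    have hB's := Finset.mem_of_mem_erase hB'
    exact Sym_of_MG hζ ((hs B').1 hB's) ((hs B).1 hB) (Finset.ne_of_mem_erase hB').symm
      (hd1 B' hB's) hx y
  exact fun x hx y => hS hx y

/-- uniqueness -/
theorem split_unique' [Fact p.Prime] {ζ : F} (hζ : IsPrimitiveRoot ζ p)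
    (hfin : (pwG F p).index ≠ 0) (s : Finset (Subgroup Fˣ)) (hs : ∀ B, B ∈ s ↔ B ∈ MG F p)
    {d : Subgroup Fˣ → Fˣ → Fˣ → ZMod p} (hd : ∀ B ∈ s, d B ∈ Sym p B)
    {e : Fˣ → Fˣ → ZMod p} (he : e ∈ Sym p (pwG F p ⊔ ⨆ B ∈ s, perp p B))
    (h0 : ∑ B ∈ s, d B + e = 0) : e = 0 ∧ ∀ B ∈ s, d B = 0 := by
  classical
  have hp : p.Prime := Fact.out
  have hd0 : ∀ B ∈ s, d B = 0 := by
    intro B hB
    have htop : B ⊔ perp p B = ⊤ := MG.sup_perp hp hζ hfin ((hs B).1 hB)
    let S : Subgroup Fˣ :=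
      { carrier := {x | ∀ y, d B x y = 0}
        mul_mem' := fun {x x'} hx hx' y => by rw [(hd B hB).1, hx, hx', add_zero]
        one_mem' := fun y => (Sym.isSymbol (hd B hB)).one_left y
        inv_mem' := fun {x} hx y => by rw [(Sym.isSymbol (hd B hB)).inv_left, hx, neg_zero] }
    have hS : B ⊔ perp p B ≤ S := by
      refine sup_le (fun x hx y => Sym.van (hd B hB) hx y) (fun x hx y => ?_)
      have h1 := congrArg (fun f : Fˣ → Fˣ → ZMod p => f x y) h0
      rw [← Finset.add_sum_erase s d hB] at h1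
      change d B x y + (∑ B' ∈ s.erase B, d B') x y + e x y = 0 at h1
      have h2 : e x y = 0 := Sym.van he (Subgroup.mem_sup_right
        (Subgroup.mem_iSup_of_mem B (Subgroup.mem_iSup_of_mem hB hx))) y
      have h3 : (∑ B' ∈ s.erase B, d B') x y = 0 := by
        rw [Finset.sum_apply, Finset.sum_apply]
        refine Finset.sum_eq_zero fun B' hB' => ?_
        have hB's := Finset.mem_of_mem_erase hB'
        exact Sym_of_MG hζ ((hs B').1 hB's) ((hs B).1 hB) (Finset.ne_of_mem_erase hB').symm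
          (hd B' hB's) hx y
      rw [h2, h3, add_zero, add_zero] at h1
      exact h1
    funext x y
    exact hS (by rw [htop]; trivial : x ∈ B ⊔ perp p B) y
  refine ⟨?_, hd0⟩
  rw [Finset.sum_eq_zero hd0, zero_add] at h0
  exact h0

/-- **The remainder has no valuation rings.** -/
theorem rest_not_adm' (hp : p.Prime) {ζ : F} (hζ : IsPrimitiveRoot ζ p)
    (hfin : (pwG F p).index ≠ 0) {T : Subgroup Fˣ} (hpT : pwG F p ≤ T)
    (hT : ∀ B ∈ MG F p, perp p B ≤ T) (O : ValuationSubring F) : ¬ Adm p T O := by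
  intro hO
  have hadm : Adm p (pwG F p) O := ⟨hO.inv_mem, fun h => hO.ne_top (by
    rw [eq_top_iff, ← h]
    exact sup_le_sup_left hpT _)⟩
  obtain ⟨B, hB, hle⟩ := exists_MG hfin (Or.inl ⟨O, hadm, rfl⟩ : near O (pwG F p) ∈ LG F p)
  have htop := MG.sup_perp hp hζ hfin hB
  apply hO.ne_top
  rw [eq_top_iff, ← htop]
  refine sup_le ((hle.trans near_le_units).trans (sup_le_sup_left hpT _)) ?_
  exact (hT _ hB).trans le_sup_right

/-- **No ordering is positive on the remainder.** -/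
theorem rest_not_cone {ζ : F} (hζ : IsPrimitiveRoot ζ 2) (hfin : (pwG F 2).index ≠ 0)
    {T : Subgroup Fˣ} (hT : ∀ B ∈ MG F 2, perp 2 B ≤ T) {P : Subgroup Fˣ} (hP : IsCone P) :
    ¬ T ≤ P := by
  intro hle
  obtain ⟨B, hB, h1⟩ := exists_MG hfin (Or.inr ⟨rfl, hP⟩ : P ∈ LG F 2)
  have htop := MG.sup_perp Nat.prime_two hζ hfin hB
  apply hP.ne_top
  rw [eq_top_iff, ← htop]
  exact sup_le h1 ((hT _ hB).trans hle)

/-- **Indecomposable fields.** -/
theorem indec' (hp : p.Prime) {ζ : F} (hζ : IsPrimitiveRoot ζ p)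
    (hfin : (pwG F p).index ≠ 0)
    (hind : ∀ A A' : Subgroup Fˣ, pwG F p ≤ A → pwG F p ≤ A' → A ⊔ A' = ⊤ → A ⊓ A' = pwG F p →
      (∀ a ∈ A, a ∉ pwG F p → A' ≤ nmG p a) → A = pwG F p ∨ A' = pwG F p)
    (hB : B ∈ LG F p) : pwG F p ∈ LG F p := by
  obtain ⟨B', hB', -⟩ := exists_MG hfin hB
  suffices h : B' ≤ pwG F p by
    rw [← le_antisymm h (LG.pw_le hB'.1)]
    exact hB'.1
  by_contra hne
  have hpB : pwG F p ≤ B' := LG.pw_le hB'.1
  have hpP : pwG F p ≤ perp p B' := fun x hx c _ _ => pw_mem_nm' hp hx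
  have htop : B' ⊔ perp p B' = ⊤ := MG.sup_perp hp hζ hfin hB'
  have hBtop : B' ≠ ⊤ := LG.ne_top hB'.1
  by_cases hR : B' ⊓ perp p B' ≤ pwG F p
  · have h1 := hind B' (perp p B') hpB hpP htop (le_antisymm hR (le_inf hpB hpP))
      (fun a ha hap x hx => hx a ha hap)
    rcases h1 with h1 | h1
    · exact hne h1.le
    · rw [h1, sup_eq_left.2 hpB] at htop
      exact hBtop htop
  · obtain ⟨r, hr, hrp⟩ := Set.not_subset.1 hR
    obtain ⟨hrB, hrP⟩ := Subgroup.mem_inf.1 hr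
    have hrtop : nmG p r = ⊤ := by
      rw [eq_top_iff, ← htop]
      exact sup_le (le_nm_of_perp' hp hζ hrP hrp) (fun x hx => hx r hrB hrp)
    obtain ⟨A, A', h1, h2, h3, h4, h5, h6⟩ := exists_compl hp r
    have h7 := hind A A' h1 h2 h3 h4 (by
      intro a ha hap x _
      by_cases hxp : x ∈ pwG F p
      · exact pw_mem_nm' hp hxp
      · refine nm_symm' hp hζ hxp ?_ hap
        obtain ⟨j, hj⟩ := h6 a ha
        have hrx : r ∈ nmG p x := nm_symm' hp hζ hrp (by rw [hrtop]; trivial) hxp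
        have h8 := mul_mem (pw_mem_nm' hp hj : _ ∈ nmG p x) (pow_mem hrx j)
        rwa [inv_mul_cancel_right] at h8)
    rcases h7 with h7 | h7
    · rw [h7] at h5
      exact hrp h5
    · rw [h7, sup_eq_left.2 h1] at h3
      apply hBtop
      rw [eq_top_iff, ← h3]
      intro a ha
      obtain ⟨j, hj⟩ := h6 a ha
      have h8 := mul_mem (hpB hj) (pow_mem hrB j)
      rwa [inv_mul_cancel_right] at h8

end

end Pool.Agent.V7H55.ET2
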