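import Mathlib
import Pool.Agent.V7H55.ET2.SymA
import Pool.Agent.V7H55.ET.Res

set_option autoImplicit false

/-!
# Symbols of the decomposition field, all primes
-/

open IntermediateField

namespace Pool.Agent.V7H55.ET2

open Pool.Agent.V7H55.ET
open Pool.Agent.Y920.EP (pwG)

section res

variable {p : ℕ} [Fact p.Prime] {F K : Type} [Field F] [Field K] [Algebra F K]
  {W : ValuationSubring K}

variable {T : Subgroup Fˣ}

/-- the value of a symbol depends on the classes only -/
lemma sym_cl' (hT : ∀ u : Fˣ, W.valuation (algebraMap F K u - 1) < 1 → u ∈ T)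
    {c : Fˣ → Fˣ → ZMod p} (hc : c ∈ Sym p T) {x y : K} (hx : x ≠ 0) (hy : y ≠ 0)
    {f f' g g' : Fˣ} (h1 : Cl W x f) (h2 : Cl W x f') (h3 : Cl W y g) (h4 : Cl W y g') :
    c f' g' = c f g :=
  congr' hc (hT _ (Cl.unique hx h1 h2)) (hT _ (Cl.unique hy h3 h4))

/-- the Steinberg relation -/
lemma sym_steinberg' (hT : ∀ u : Fˣ, W.valuation (algebraMap F K u - 1) < 1 → u ∈ T)
    {c : Fˣ → Fˣ → ZMod p} (hc : c ∈ Sym p T) {x y : K} (hx : x ≠ 0) (hy : y ≠ 0) (hxy : x + y = 1)
    {f g : Fˣ} (hf : Cl W x f) (hg : Cl W y g) : c f g = 0 := by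
  have hone : Cl (F := F) W 1 1 := by
    have := Cl.self (W := W) (1 : Fˣ)
    rwa [Units.val_one, map_one] at this
  have hnegc : ∀ a : Fˣ, c a (-a) = 0 := fun a => neg_right hc a
  rcases lt_trichotomy (W.valuation x) 1 with h | h | h
  · -- `y` is close to `1`
    have h1 : W.valuation (y / 1 - 1) < 1 := by
      have e : y / 1 - 1 = -x := by rw [div_one]; linear_combination hxy
      rw [e, Valuation.map_neg]
      exact h
    have h2 := hT _ (Cl.unique hy (hone.trans one_ne_zero h1) hg)
    rw [inv_one, one_mul] at h2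
    exact van_right' hc h2 f
  · rcases lt_or_eq_of_le (show W.valuation y ≤ 1 by
      have e : y = 1 - x := by linear_combination hxy
      rw [e]
      exact (Valuation.map_sub _ _ _).trans (max_le (by rw [map_one]) h.le)) with h' | h'
    · have h1 : W.valuation (x / 1 - 1) < 1 := by
        have e : x / 1 - 1 = -y := by rw [div_one]; linear_combination hxy
        rw [e, Valuation.map_neg]
        exact h'
      have h2 := hT _ (Cl.unique hx (hone.trans one_ne_zero h1) hf)
      rw [inv_one, one_mul] at h2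
      exact Sym.van hc h2 g
    · -- both are units
      have hfx : W.valuation (x - algebraMap F K f) < 1 := by
        have h1 : W.valuation (algebraMap F K f) = 1 := by
          have h2 := val_one_of hf
          rw [map_div₀, h, div_eq_one_iff_eq] at h2
          · exact h2.symm
          · exact (Valuation.ne_zero_iff _).2 (alg_ne f)
        have h3 : x - algebraMap F K f = (x / algebraMap F K f - 1) * algebraMap F K f := by
          have := alg_ne (K := K) f
          field_simp
        rw [h3, map_mul, h1, mul_one]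
        exact hf
      have h4 : W.valuation ((1 - algebraMap F K f) / y - 1) < 1 := by
        have e : (1 - algebraMap F K f) / y - 1 = (x - algebraMap F K f) / y := by
          rw [div_sub_one hy]
          congr 1
          linear_combination -hxy
        rw [e, map_div₀, h', div_one]
        exact hfx
      have h5 : (1 : F) - f ≠ 0 := by
        intro h6
        have h7 : (1 : K) - algebraMap F K f = 0 := by
          rw [← map_one (algebraMap F K), ← map_sub, h6, map_zero]
        rw [h7, zero_div] at h4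
        exact ne_zero_of h4 rfl
      set w : Fˣ := Units.mk0 (1 - (f : F)) h5 with hw
      have h6 : c f w = 0 := hc.2.2.1 f w (by rw [hw, Units.val_mk0]; ring)
      have h7 : algebraMap F K w = 1 - algebraMap F K f := by
        rw [hw, Units.val_mk0, map_sub, map_one]
      have h8 : Cl W (algebraMap F K w) g := hg.trans hy (by rw [h7]; exact h4)
      rw [← sym_cl' hT hc hx (alg_ne (K := K) w) hf hf h8 (Cl.self w)]
      exact h6
  · -- `y` is close to `-x`
    have h1 : W.valuation (y / (-x) - 1) < 1 := by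
      have e : y / (-x) - 1 = - (1 / x) := by
        have e2 : y = 1 - x := by linear_combination hxy
        rw [e2]
        field_simp
        ring
      rw [e, Valuation.map_neg, map_div₀, map_one]
      exact (div_lt_one₀ (zero_lt_one.trans h)).2 h
    have h2 : Cl W (-x) (-f) := by
      unfold Cl
      rw [Units.val_neg, map_neg, neg_div_neg_eq]
      exact hf
    have h3 : Cl W y (-f) := h2.trans (neg_ne_zero.2 hx) h1
    rw [sym_cl' hT hc hx hy hf hf h3 hg]
    exact hnegc f

/-- **Symbols of the decomposition field.** -/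
theorem bij_symbols' {E : IntermediateField F K} (himm : Imm W E)
    (hroot : ∀ y ∈ E, W.valuation (y - 1) < 1 → ∃ β ∈ E, β ^ p = y)
    (hT : ∀ f : Fˣ, f ∈ T ↔ ∃ u g : Fˣ, W.valuation (algebraMap F K u - 1) < 1 ∧ f = u * g ^ p) :
    Set.BijOn (restr (p := p) E) {c | c ∈ Sym p (pwG E p)} {c | c ∈ Sym p T} := by
  have hp : p.Prime := Fact.out
  have hT1 : ∀ u : Fˣ, W.valuation (algebraMap F K u - 1) < 1 → u ∈ T := fun u hu =>
    (hT u).2 ⟨u, 1, hu, by rw [one_pow, mul_one]⟩
  have hex : ∀ x : (↥E)ˣ, ∃ f : Fˣ, Cl W ((x : E) : K) f := by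
    intro x
    obtain ⟨f, hf0, hf⟩ := himm ((x : E) : K) x.1.2 (fun h => x.ne_zero (Subtype.ext h))
    exact ⟨Units.mk0 f hf0, hf⟩
  choose r hr using hex
  have hne : ∀ x : (↥E)ˣ, ((x : E) : K) ≠ 0 := fun x h => x.ne_zero (Subtype.ext h)
  -- `x` is a `p`-th power times its approximation
  have hdec : ∀ x : (↥E)ˣ, ∃ β : (↥E)ˣ, x = Units.map (algebraMap F E : F →* E) (r x) * β ^ p := by
    intro x
    obtain ⟨β, hβ, hβp⟩ := hroot (((x : E) : K) / algebraMap F K (r x))
      (div_mem x.1.2 (E.algebraMap_mem _)) (hr x)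
    have hβ0 : β ≠ 0 := by
      rintro rfl
      rw [zero_pow hp.ne_zero] at hβp
      exact div_ne_zero (hne x) (alg_ne _) hβp.symm
    refine ⟨Units.mk0 ⟨β, hβ⟩ (fun h => hβ0 (congrArg Subtype.val h)), ?_⟩
    apply Units.ext
    apply Subtype.ext
    change ((x : E) : K) = algebraMap F K (r x) * β ^ p
    rw [hβp, mul_div_cancel₀ _ (alg_ne _)]
  have hpow : ∀ (c : (↥E)ˣ → (↥E)ˣ → ZMod p), c ∈ Sym p (pwG E p) → ∀ x y,
      c x y = restr E c (r x) (r y) := by
    intro c hc x y
    obtain ⟨β, hβ⟩ := hdec x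
    obtain ⟨γ, hγ⟩ := hdec y
    have h1 : c x y = c (Units.map (algebraMap F E : F →* E) (r x)) y := by
      conv_lhs => rw [hβ]
      rw [hc.1, Sym.van hc (show β ^ p ∈ pwG E p from ⟨β, rfl⟩), add_zero]
    have h2 : c (Units.map (algebraMap F E : F →* E) (r x)) y =
        c (Units.map (algebraMap F E : F →* E) (r x)) (Units.map (algebraMap F E : F →* E) (r y)) := by
      conv_lhs => rw [hγ]
      rw [hc.2.1, van_right' hc (show γ ^ p ∈ pwG E p from ⟨γ, rfl⟩), add_zero]
    rw [h1, h2]
    rfl
  refine ⟨?_, ?_, ?_⟩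
  · intro c hc
    refine ⟨fun a b x => ?_, fun x a b => ?_, fun x y hxy => ?_, fun x hx y => ?_⟩
    · unfold restr
      rw [map_mul]
      exact hc.1 _ _ _
    · unfold restr
      rw [map_mul]
      exact hc.2.1 _ _ _
    · refine hc.2.2.1 _ _ ?_
      change algebraMap F E x + algebraMap F E y = 1
      rw [← map_add, hxy, map_one]
    · refine Sym.van hc ?_ _
      obtain ⟨u, g, hu, rfl⟩ := (hT x).1 hx
      obtain ⟨β, hβ, hβp⟩ := hroot (algebraMap F K u) (E.algebraMap_mem _) hu
      have hβ0 : β ≠ 0 := by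
        rintro rfl
        rw [zero_pow hp.ne_zero] at hβp
        exact alg_ne _ hβp.symm
      refine ⟨Units.mk0 ⟨β, hβ⟩ (fun h => hβ0 (congrArg Subtype.val h)) *
        Units.map (algebraMap F E : F →* E) g, ?_⟩
      apply Units.ext
      apply Subtype.ext
      change (β * algebraMap F K g) ^ p = algebraMap F K (u * g ^ p : Fˣ)
      rw [mul_pow, hβp, Units.val_mul, Units.val_pow_eq_pow_val, map_mul, map_pow]
  · intro c hc d hd h
    funext x y
    rw [hpow c hc, hpow d hd, h]
  · intro c hc
    have hc' : c ∈ Sym p T := hc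
    refine ⟨fun x y => c (r x) (r y), ⟨?_, ?_, ?_, ?_⟩, ?_⟩
    · intro a b x
      have h1 : Cl W (((a * b : (↥E)ˣ) : E) : K) (r a * r b) := (hr a).mul (hr b)
      rw [← hc'.1]
      exact sym_cl' hT1 hc' (hne _) (hne x) h1 (hr _) (hr x) (hr x)
    · intro x a b
      have h1 : Cl W (((a * b : (↥E)ˣ) : E) : K) (r a * r b) := (hr a).mul (hr b)
      rw [← hc'.2.1]
      exact sym_cl' hT1 hc' (hne x) (hne _) (hr x) (hr x) h1 (hr _)
    · intro x y hxy
      refine sym_steinberg' hT1 hc' (hne x) (hne y) ?_ (hr x) (hr y)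
      exact congrArg Subtype.val hxy
    · rintro x ⟨β, rfl⟩ y
      have h1 : Cl W ((((powMonoidHom p : (↥E)ˣ →* (↥E)ˣ) β : (↥E)ˣ) : E) : K) ((r β) ^ p) := by
        have h2 := near_pow (hr β) p
        unfold Cl
        rw [Units.val_pow_eq_pow_val, map_pow]
        rw [div_pow] at h2
        exact h2
      change c (r ((powMonoidHom p : (↥E)ˣ →* (↥E)ˣ) β)) (r y) = 0
      rw [sym_cl' hT1 hc' (hne _) (hne y) h1 (hr _) (hr y) (hr y)]
      exact Sym.van hc' ((hT _).2 ⟨1, r β, by
        rw [Units.val_one, map_one, sub_self, map_zero]; exact zero_lt_one, by rw [one_mul]⟩) _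
    · funext x y
      unfold restr
      refine sym_cl' hT1 hc' (alg_ne (K := K) x) (alg_ne (K := K) y) (Cl.self x) ?_ (Cl.self y) ?_
      · exact hr (Units.map (algebraMap F E : F →* E) x)
      · exact hr (Units.map (algebraMap F E : F →* E) y)

end res

end Pool.Agent.V7H55.ET2
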