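import Mathlib
import Pool.Agent.V7H55.ET2.FinA
import Pool.Agent.V7H55.ET2.DecA
import Pool.Agent.Y920.ETC.GalH
import Pool.Agent.Y37.ET.Max2

set_option autoImplicit false

/-!
# Galois groups: compatible valuation rings and euclidean fields
-/

open IntermediateField

namespace Pool.Agent.V7H55.ET2

open Pool.Agent.V7H55.ET
open Pool.Agent.Y469.EP (Tw)
open Pool.Agent.Y920.EP (pwG nmG)
open Pool.Agent.Results.MP_600e55_nt.SymbolPartitions (powers IsMaximalPExtension
  IsDecompositionGroup ConclusionOfQ1 IsFreeProduct)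

/-- the whole group -/
lemma free_top (p : ℕ) {G : Type} [Group G] [TopologicalSpace G] [IsTopologicalGroup G] :
    IsFreeProduct p (fun _ : Fin 1 => (⊤ : Subgroup G)) := by
  intro P _ _ _ φ hφ
  refine ⟨(φ 0).comp (Subgroup.topEquiv (G := G)).symm.toMonoidHom, ⟨?_, ?_⟩, ?_⟩
  · have h1 : (((φ 0).comp (Subgroup.topEquiv (G := G)).symm.toMonoidHom).ker : Set G) =
        Subtype.val '' ((φ 0).ker : Set ((⊤ : Subgroup G))) := by
      ext g
      constructor
      · intro hg
        exact ⟨⟨g, trivial⟩, hg, rfl⟩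
      · rintro ⟨g', hg', rfl⟩
        exact hg'
    rw [h1]
    exact (isOpen_univ.isOpenEmbedding_subtypeVal).isOpenMap _ (hφ 0)
  · intro i x
    have : i = 0 := Subsingleton.elim _ _
    subst this
    rfl
  · rintro ψ ⟨-, hψ⟩
    ext g
    exact hψ 0 ⟨g, trivial⟩

/-- the conclusion of Q1 from a valuation ring whose one-units are `p`-th powers -/
theorem conclusion' {p : ℕ} [Fact p.Prime] {F : Type} [Field F]
    (hζ : ∃ ζ : F, IsPrimitiveRoot ζ p) {O : ValuationSubring F} (hpO : (p : F)⁻¹ ∈ O)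
    (hle : O.principalUnitGroup ≤ powers F p) (hne : O.unitGroup ⊔ powers F p ≠ ⊤)
    (K : IntermediateField F (AlgebraicClosure F)) (hK : IsMaximalPExtension p K) :
    IsDecompositionGroup (⊤ : Subgroup (↥K ≃ₐ[F] ↥K)) ∧ ConclusionOfQ1 p K := by
  by_cases hp2 : p = 2
  · subst hp2
    have hF2 : (2 : F) ≠ 0 := by
      obtain ⟨ζ, hζ⟩ := hζ
      have : NeZero 2 := ⟨two_ne_zero⟩
      exact_mod_cast hζ.neZero'.ne
    have hone : ∀ x : F, x ∈ O → x⁻¹ ∉ O → IsSquare (1 + x) := by
      intro x hx hx'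
      obtain ⟨t, ht, e⟩ := near_one (T := powers F 2) hx hx'
      have ht' : t ∈ powers F 2 := (sup_le hle le_rfl : near O (powers F 2) ≤ powers F 2) ht
      obtain ⟨y, rfl⟩ := ht'
      refine ⟨y, ?_⟩
      rw [← e]
      change ((y ^ 2 : Fˣ) : F) = y * y
      rw [pow_two, Units.val_mul]
    obtain ⟨c, hc⟩ : ∃ c : Fˣ, c ∉ O.unitGroup ⊔ powers F 2 := by
      by_contra hc
      push Not at hc
      exact hne (eq_top_iff.2 fun c _ => hc c)
    have hD : Pool.Agent.Y920.ETC.DecInert F K :=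
      Pool.Agent.Y920.ETC.decInert Pool.Agent.Y620.ET.t_EXTV Pool.Agent.Y37.ET.t_MAX2 F hF2 O
        ⟨by exact_mod_cast hpO, hF2, hone⟩ ⟨c, by
          rintro f ⟨h6, h7⟩
          apply hc
          have h8 : c * f ^ 2 ∈ O.unitGroup := Pool.Agent.R675.TP.mem_unitGroup_of h6 h7
          have h9 : f ^ 2 ∈ powers F 2 := ⟨f, rfl⟩
          have h10 := mul_mem (show c * f ^ 2 ∈ O.unitGroup ⊔ powers F 2 from
            Subgroup.mem_sup_left h8)
            (inv_mem (show f ^ 2 ∈ O.unitGroup ⊔ powers F 2 from Subgroup.mem_sup_right h9))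
          rwa [mul_inv_cancel_right] at h10⟩ K hK
    obtain ⟨Γ, hΓ, w, hw, σ, hσ, hσw⟩ := hD
    have hdec : IsDecompositionGroup (⊤ : Subgroup (↥K ≃ₐ[F] ↥K)) :=
      ⟨Γ, hΓ, w, fun τ => ⟨fun _ x => hw τ x, fun _ => trivial⟩, σ, trivial, hσ, hσw⟩
    exact ⟨hdec, 1, fun _ => ⊤, fun _ => isClosed_univ, free_top 2, fun _ => Or.inr (Or.inl hdec)⟩
  · exact conclusion hp2 hζ hpO hle hne K hK

/-- a field in which all elements are squares has no Galois extension of degree `2^k`, `k > 0` -/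
lemma no_ext {E M : Type} [Field E] [Field M] [Algebra E M] [FiniteDimensional E M] [IsGalois E M]
    (h2 : (2 : E) ≠ 0) (hsq : ∀ d : E, ∃ e : E, e ^ 2 = d) {k : ℕ}
    (hk : Module.finrank E M = 2 ^ k) : k = 0 := by
  by_contra hk0
  obtain ⟨j, rfl⟩ : ∃ j, k = j + 1 := ⟨k - 1, by omega⟩
  have : Fact (Nat.Prime 2) := ⟨Nat.prime_two⟩
  have hcard : Nat.card (M ≃ₐ[E] M) = 2 ^ (j + 1) := by
    rw [IsGalois.card_aut_eq_finrank, hk]
  obtain ⟨H, hH⟩ := Sylow.exists_subgroup_card_pow_prime (G := M ≃ₐ[E] M) 2 (n := j)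
    (by rw [hcard]; exact pow_dvd_pow 2 (Nat.le_succ j))
  have hidx : H.index = 2 := by
    have h1 := H.card_mul_index
    rw [hH, hcard, pow_succ] at h1
    exact Nat.eq_of_mul_eq_mul_left (by positivity) h1
  have hnor : H.Normal := Subgroup.normal_of_index_eq_two hidx
  set N := IntermediateField.fixedField H with hN
  have hNM : Module.finrank N M = 2 ^ j := by
    rw [hN, IntermediateField.finrank_fixedField_eq_card, hH]
  have hEN : Module.finrank E N = 2 := by
    have h1 := Module.finrank_mul_finrank E N M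
    rw [hNM, hk, pow_succ, mul_comm] at h1
    exact Nat.eq_of_mul_eq_mul_left (by positivity) h1
  have hgal : IsGalois E N := IsGalois.of_fixedField_normal_subgroup H
  have hc : Nat.card (N ≃ₐ[E] N) = 2 := by rw [IsGalois.card_aut_eq_finrank, hEN]
  have hcyc : IsCyclic (N ≃ₐ[E] N) := isCyclic_of_prime_card (p := 2) hc
  have hprim : (primitiveRoots (Module.finrank E N) E).Nonempty := by
    rw [hEN]
    refine ⟨-1, ?_⟩
    rw [mem_primitiveRoots two_pos]
    refine IsPrimitiveRoot.mk_of_lt _ two_pos (by ring) ?_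
    intro l hl0 hl2
    have : l = 1 := by omega
    subst this
    rw [pow_one]
    intro h
    apply h2
    linear_combination -h
  obtain ⟨α, ⟨d, hd⟩, hα⟩ := exists_root_adjoin_eq_top_of_isCyclic E N hprim
  rw [hEN] at hd
  obtain ⟨e, he⟩ := hsq d
  have h3 : (α - algebraMap E N e) * (α + algebraMap E N e) = 0 := by
    rw [← he, map_pow] at hd
    linear_combination -hd
  have hmem : α ∈ (⊥ : IntermediateField E N) := by
    rcases mul_eq_zero.1 h3 with h4 | h4
    · rw [sub_eq_zero.1 h4]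
      exact IntermediateField.algebraMap_mem _ e
    · rw [eq_neg_of_add_eq_zero_left h4]
      exact neg_mem (IntermediateField.algebraMap_mem _ e)
  have h5 : (⊤ : IntermediateField E N) = ⊥ := by
    rw [← hα, IntermediateField.adjoin_simple_eq_bot_iff]
    exact hmem
  have h6 : Module.finrank E N = 1 := by
    rw [← IntermediateField.finrank_top', h5, IntermediateField.finrank_bot]
  omega

/-- elements of `F(i)` -/
lemma gauss {F K : Type} [Field F] [Field K] [Algebra F K] (hneg : ∀ x : F, x ^ 2 ≠ -1) {i : K}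
    (hi : i ^ 2 = -1) {z : K} (hz : z ∈ F⟮i⟯) :
    ∃ a b : F, z = algebraMap F K a + algebraMap F K b * i := by
  have hns : ∀ a b : F, a ^ 2 + b ^ 2 = 0 → a = 0 ∧ b = 0 := by
    intro a b h
    by_cases hb : b = 0
    · subst hb
      refine ⟨?_, rfl⟩
      have : a ^ 2 = 0 := by linear_combination h
      exact pow_eq_zero_iff (two_ne_zero) |>.1 this
    · exfalso
      apply hneg (a / b)
      rw [div_pow, div_eq_iff (pow_ne_zero 2 hb)]
      linear_combination h
  induction hz using IntermediateField.adjoin_induction with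
  | mem x hx =>
    rw [Set.mem_singleton_iff] at hx
    exact ⟨0, 1, by rw [hx, map_zero, map_one]; ring⟩
  | algebraMap x => exact ⟨x, 0, by rw [map_zero]; ring⟩
  | add x y _ _ hx hy =>
    obtain ⟨a, b, rfl⟩ := hx
    obtain ⟨c, d, rfl⟩ := hy
    exact ⟨a + c, b + d, by rw [map_add, map_add]; ring⟩
  | inv x _ hx =>
    obtain ⟨a, b, rfl⟩ := hx
    by_cases h0 : a ^ 2 + b ^ 2 = 0
    · obtain ⟨rfl, rfl⟩ := hns a b h0
      exact ⟨0, 0, by simp⟩
    · refine ⟨a / (a ^ 2 + b ^ 2), - b / (a ^ 2 + b ^ 2), ?_⟩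
      have h1 : algebraMap F K (a ^ 2 + b ^ 2) ≠ 0 := (map_ne_zero _).2 h0
      have h2 : (algebraMap F K a + algebraMap F K b * i) *
          (algebraMap F K a - algebraMap F K b * i) = algebraMap F K (a ^ 2 + b ^ 2) := by
        rw [map_add, map_pow, map_pow]
        linear_combination - (algebraMap F K b) ^ 2 * hi
      have h3 : algebraMap F K a + algebraMap F K b * i ≠ 0 := by
        intro h
        rw [h, zero_mul] at h2
        exact h1 h2.symm
      rw [inv_eq_iff_eq_inv, map_div₀, map_div₀, map_neg]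
      have h4 : algebraMap F K a - algebraMap F K b * i ≠ 0 := by
        intro h
        rw [h, mul_zero] at h2
        exact h1 h2.symm
      have e : algebraMap F K a / algebraMap F K (a ^ 2 + b ^ 2) +
          -algebraMap F K b / algebraMap F K (a ^ 2 + b ^ 2) * i =
          (algebraMap F K a - algebraMap F K b * i) / algebraMap F K (a ^ 2 + b ^ 2) := by ring
      rw [e, inv_div, eq_div_iff h4, h2]
  | mul x y _ _ hx hy =>
    obtain ⟨a, b, rfl⟩ := hx
    obtain ⟨c, d, rfl⟩ := hy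
    refine ⟨a * c - b * d, a * d + b * c, ?_⟩
    rw [map_sub, map_add, map_mul, map_mul, map_mul, map_mul]
    linear_combination (algebraMap F K b) * (algebraMap F K d) * hi

/-- all elements of `F(i)` are squares if all positive elements of `F` are squares -/
lemma gauss_sq {F K : Type} [Field F] [Field K] [Algebra F K] [LinearOrder F]
    [IsStrictOrderedRing F] (hsq : ∀ x : F, 0 < x → ∃ y : F, x = y ^ 2) {i : K}
    (hi : i ^ 2 = -1) (a b : F) :
    ∃ c d : F, (algebraMap F K c + algebraMap F K d * i) ^ 2 =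
      algebraMap F K a + algebraMap F K b * i := by
  suffices h : ∃ c d : F, c ^ 2 - d ^ 2 = a ∧ 2 * c * d = b by
    obtain ⟨c, d, h1, h2⟩ := h
    refine ⟨c, d, ?_⟩
    rw [← h1, ← h2, map_sub, map_pow, map_pow, map_mul, map_mul, map_ofNat]
    linear_combination (algebraMap F K d) ^ 2 * hi
  by_cases hb : b = 0
  · subst hb
    rcases lt_trichotomy a 0 with h | h | h
    · obtain ⟨y, hy⟩ := hsq (-a) (by linarith)
      exact ⟨0, y, by linear_combination hy, by ring⟩
    · exact ⟨0, 0, by rw [h]; ring, by ring⟩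
    · obtain ⟨y, hy⟩ := hsq a h
      exact ⟨y, 0, by linear_combination -hy, by ring⟩
  · have hb2 : 0 < b ^ 2 := by positivity
    obtain ⟨r₀, hr₀⟩ := hsq (a ^ 2 + b ^ 2) (by positivity)
    -- a positive root
    obtain ⟨r, hr, hr2⟩ : ∃ r : F, 0 ≤ r ∧ r ^ 2 = a ^ 2 + b ^ 2 :=
      ⟨|r₀|, abs_nonneg _, by rw [sq_abs, hr₀]⟩
    have hpos : 0 < a + r := by
      by_contra hc
      rw [not_lt] at hc
      nlinarith
    obtain ⟨x, hx⟩ := hsq ((a + r) / 2) (by positivity)
    have hx0 : x ≠ 0 := by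
      rintro rfl
      have : (a + r) / 2 = 0 := by rw [hx]; ring
      linarith
    refine ⟨x, b / (2 * x), ?_, by field_simp⟩
    have h4 : x ^ 2 ≠ 0 := pow_ne_zero 2 hx0
    have h5 : x ^ 2 - (b / (2 * x)) ^ 2 = x ^ 2 - b ^ 2 / (4 * x ^ 2) := by
      rw [div_pow]
      ring
    rw [h5, sub_eq_iff_eq_add, ← sub_eq_iff_eq_add', eq_div_iff (mul_ne_zero four_ne_zero h4), ← hx]
    linear_combination hr2

/-- **Euclidean fields.** -/
theorem euclid {F : Type} [Field F] (hc : IsCone (pwG F 2))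
    (K : IntermediateField F (AlgebraicClosure F)) (hK : IsMaximalPExtension 2 K) :
    Nat.card (↥K ≃ₐ[F] ↥K) = 2 ∧
      ∀ h : Fact (Nat.Prime 2), ConclusionOfQ1 2 K := by
  have hp : Nat.Prime 2 := Nat.prime_two
  obtain ⟨o₁, o₂, hc⟩ := hc
  have hF2 : (2 : F) ≠ 0 := two_ne_zero
  have hζ : IsPrimitiveRoot (-1 : F) 2 := by
    refine IsPrimitiveRoot.mk_of_lt _ two_pos (by ring) ?_
    intro l hl0 hl2
    have : l = 1 := by omega
    subst this
    rw [pow_one]
    intro h
    apply hF2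
    linear_combination -h
  have hsq : ∀ x : F, 0 < x → ∃ y : F, x = y ^ 2 := by
    intro x hx
    obtain ⟨y, hy⟩ := (hc (Units.mk0 x hx.ne')).2 hx
    refine ⟨y, ?_⟩
    have := congrArg (fun u : Fˣ => (u : F)) hy
    exact this.symm
  have hneg : ∀ x : F, x ^ 2 ≠ -1 := by
    intro x hx
    have := sq_nonneg x
    rw [hx] at this
    linarith [zero_lt_one (α := F)]
  obtain ⟨hgal, hL, -⟩ := Pool.Agent.Y469.EP.t_MAX' 2 hp F ⟨_, hζ⟩ K hK
  obtain ⟨i, hi⟩ := closed_root hp hζ K hK (-1)
  have hsqE : ∀ d : F⟮i⟯, ∃ e : F⟮i⟯, e ^ 2 = d := by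
    intro d
    obtain ⟨a, b, hab⟩ := gauss hneg hi d.2
    obtain ⟨c, e, hce⟩ := gauss_sq (K := K) hsq hi a b
    refine ⟨⟨algebraMap F K c + algebraMap F K e * i, ?_⟩, ?_⟩
    · exact add_mem (IntermediateField.algebraMap_mem _ c) (mul_mem (IntermediateField.algebraMap_mem _ e)
        (IntermediateField.mem_adjoin_simple_self F i))
    · apply Subtype.ext
      rw [← hab] at hce
      exact hce
  have htop : F⟮i⟯ = ⊤ := by
    rw [eq_top_iff]
    intro x _
    obtain ⟨M, hxM, hfd, hg, k, hk⟩ := comp hp hL F⟮i⟯ x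
    have := hfd
    have := hg
    have hE2 : (2 : F⟮i⟯) ≠ 0 := by
      intro h
      apply hF2
      apply (algebraMap F F⟮i⟯).injective
      rw [map_ofNat, h, map_zero]
    have hk0 := no_ext hE2 hsqE hk
    rw [hk0, pow_zero] at hk
    rw [IntermediateField.finrank_eq_one_iff.1 hk] at hxM
    obtain ⟨y, rfl⟩ := IntermediateField.mem_bot.1 hxM
    exact y.2
  have hint : IsIntegral F i := ⟨Polynomial.X ^ 2 - Polynomial.C (-1 : F),
    Polynomial.monic_X_pow_sub_C _ two_ne_zero, by
      rw [Polynomial.eval₂_sub, Polynomial.eval₂_pow, Polynomial.eval₂_X, Polynomial.eval₂_C, hi,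
        map_neg, map_one, sub_self]⟩
  have hfd : FiniteDimensional F F⟮i⟯ := IntermediateField.adjoin.finiteDimensional hint
  have hmin : minpoly F i = Polynomial.X ^ 2 - Polynomial.C (-1 : F) := by
    symm
    apply minpoly.eq_of_irreducible_of_monic
    · exact X_pow_sub_C_irreducible_of_prime hp hneg
    · rw [map_sub, map_pow, Polynomial.aeval_X, Polynomial.aeval_C, hi, map_neg, map_one, sub_self]
    · exact Polynomial.monic_X_pow_sub_C _ two_ne_zero
  have hrank : Module.finrank F K = 2 := by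
    rw [← IntermediateField.finrank_top', ← htop, IntermediateField.adjoin.finrank hint, hmin,
      Polynomial.natDegree_X_pow_sub_C]
  have hfdK : FiniteDimensional F K := Module.finite_of_finrank_pos (by rw [hrank]; exact two_pos)
  have hcard : Nat.card (↥K ≃ₐ[F] ↥K) = 2 := by rw [IsGalois.card_aut_eq_finrank, hrank]
  refine ⟨hcard, fun _ => ⟨1, fun _ => ⊤, fun _ => isClosed_univ, free_top 2, fun _ => ?_⟩⟩
  right
  right
  refine ⟨rfl, ?_⟩
  rw [Subgroup.card_top]
  exact hcard

end Pool.Agent.V7H55.ET2
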