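import Mathlib

set_option autoImplicit false

/-!
# Maximal ordered subfields of quadratically closed fields
-/

namespace Pool.Agent.V7H55.ET2

section pos

variable {E : Type} [Field E] [LinearOrder E] [IsStrictOrderedRing E]

/-- `u + v √q` is positive -/
def Pos (q u v : E) : Prop := (0 < u ∧ q * v ^ 2 < u ^ 2) ∨ (0 < v ∧ u ^ 2 < q * v ^ 2)

variable {q : E}

lemma Pos.mul (hq : 0 < q) {u v u' v' : E} (h : Pos q u v) (h' : Pos q u' v') :
    Pos q (u * u' + q * (v * v')) (u * v' + v * u') := by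
  have hN : (u * u' + q * (v * v')) ^ 2 - q * (u * v' + v * u') ^ 2 =
      (u ^ 2 - q * v ^ 2) * (u' ^ 2 - q * v' ^ 2) := by ring
  have key : ∀ a b : E, 0 < a → b ^ 2 < a ^ 2 → 0 < a + b := by
    intro a b ha hab
    by_contra hc
    rw [not_lt] at hc
    nlinarith
  rcases h with ⟨h1, h2⟩ | ⟨h1, h2⟩ <;> rcases h' with ⟨h3, h4⟩ | ⟨h3, h4⟩
  · left
    constructor
    · apply key _ _ (mul_pos h1 h3)
      have h5 : q * v ^ 2 * (q * v' ^ 2) < u ^ 2 * u' ^ 2 :=
        mul_lt_mul'' h2 h4 (by positivity) (by positivity)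
      nlinarith
    · have := mul_pos (sub_pos.2 h2) (sub_pos.2 h4)
      rw [← hN] at this
      linarith
  · right
    constructor
    · apply key _ _ (mul_pos h1 h3)
      have h5 : q * v ^ 2 * u' ^ 2 < u ^ 2 * (q * v' ^ 2) :=
        mul_lt_mul'' h2 h4 (by positivity) (by positivity)
      have h6 : q * (v * u') ^ 2 < q * (u * v') ^ 2 := by nlinarith
      exact lt_of_mul_lt_mul_left h6 hq.le
    · have := mul_pos (sub_pos.2 h2) (sub_pos.2 h4)
      nlinarith
  · right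
    constructor
    · rw [add_comm]
      apply key _ _ (mul_pos h1 h3)
      have h5 : u ^ 2 * (q * v' ^ 2) < q * v ^ 2 * u' ^ 2 :=
        mul_lt_mul'' h2 h4 (by positivity) (by positivity)
      have h6 : q * (u * v') ^ 2 < q * (v * u') ^ 2 := by nlinarith
      exact lt_of_mul_lt_mul_left h6 hq.le
    · have := mul_pos (sub_pos.2 h2) (sub_pos.2 h4)
      nlinarith
  · left
    constructor
    · rw [add_comm]
      apply key _ _ (mul_pos hq (mul_pos h1 h3))
      have h5 : u ^ 2 * u' ^ 2 < q * v ^ 2 * (q * v' ^ 2) :=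
        mul_lt_mul'' h2 h4 (by positivity) (by positivity)
      nlinarith
    · have := mul_pos (sub_pos.2 h2) (sub_pos.2 h4)
      nlinarith

lemma norm_ne (hq2 : ∀ t : E, t ^ 2 ≠ q) {u v : E} (h : u ≠ 0 ∨ v ≠ 0) : u ^ 2 ≠ q * v ^ 2 := by
  intro he
  by_cases hv : v = 0
  · rw [hv] at he
    have : u ^ 2 = 0 := by rw [he]; ring
    exact h.elim (fun h => h (pow_eq_zero_iff two_ne_zero |>.1 this)) (fun h => h hv)
  · apply hq2 (u / v)
    rw [div_pow, he]
    field_simp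

lemma Pos.total (hq : 0 < q) (hq2 : ∀ t : E, t ^ 2 ≠ q) {u v : E} (h : u ≠ 0 ∨ v ≠ 0) :
    Pos q u v ∨ Pos q (-u) (-v) := by
  have h1 := norm_ne hq2 h
  rcases lt_or_gt_of_ne h1 with h2 | h2
  · have hv : v ≠ 0 := by
      rintro rfl
      nlinarith [sq_nonneg u]
    rcases lt_or_gt_of_ne hv with h3 | h3
    · right; right
      exact ⟨by linarith, by nlinarith⟩
    · left; right
      exact ⟨h3, h2⟩
  · have hu : u ≠ 0 := by
      rintro rfl
      have : 0 ≤ q * v ^ 2 := by positivity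
      nlinarith
    rcases lt_or_gt_of_ne hu with h3 | h3
    · right; left
      exact ⟨by linarith, by nlinarith⟩
    · left; left
      exact ⟨h3, h2⟩

lemma Pos.ne (h : Pos q 0 0) : False := by
  rcases h with ⟨h, -⟩ | ⟨h, -⟩ <;> exact lt_irrefl _ h

lemma Pos.one_add (hq2 : ∀ t : E, t ^ 2 ≠ q) {u v : E} (h : Pos q u v) : Pos q (1 + u) v := by
  rcases h with ⟨h1, h2⟩ | ⟨h1, h2⟩
  · left
    exact ⟨by linarith, by nlinarith⟩
  · have h3 := norm_ne hq2 (Or.inr h1.ne' : 1 + u ≠ 0 ∨ v ≠ 0)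
    rcases lt_or_gt_of_ne h3 with h4 | h4
    · right
      exact ⟨h1, h4⟩
    · left
      refine ⟨?_, h4⟩
      by_contra hc
      rw [not_lt] at hc
      nlinarith

lemma Pos.inv {u v : E} (h : Pos q u v) :
    Pos q (u / (u ^ 2 - q * v ^ 2)) (-v / (u ^ 2 - q * v ^ 2)) := by
  have hN : ∀ N : E, N ≠ 0 → N = u ^ 2 - q * v ^ 2 → (u / N) ^ 2 - q * (-v / N) ^ 2 = 1 / N := by
    intro N hN0 hN
    field_simp
    rw [hN]
  rcases h with ⟨h1, h2⟩ | ⟨h1, h2⟩
  · have h3 : 0 < u ^ 2 - q * v ^ 2 := by linarith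
    left
    have h4 := hN _ h3.ne' rfl
    have h5 := one_div_pos.2 h3
    rw [← h4] at h5
    exact ⟨div_pos h1 h3, by linarith⟩
  · have h3 : u ^ 2 - q * v ^ 2 < 0 := by linarith
    right
    have h4 := hN _ h3.ne rfl
    have h5 := one_div_neg.2 h3
    rw [← h4] at h5
    exact ⟨div_pos_of_neg_of_neg (by linarith) h3, by linarith⟩

lemma Pos.add (hq : 0 < q) (hq2 : ∀ t : E, t ^ 2 ≠ q) {u v u' v' : E} (h : Pos q u v)
    (h' : Pos q u' v') : Pos q (u + u') (v + v') := by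
  have h1 := (Pos.mul hq h.inv h').one_add hq2
  have h2 := Pos.mul hq h h1
  have hne : u ^ 2 - q * v ^ 2 ≠ 0 := by
    rcases h with ⟨-, h⟩ | ⟨-, h⟩
    · exact (sub_pos.2 h).ne'
    · exact (sub_neg.2 h).ne
  have e1 : u * (1 + (u / (u ^ 2 - q * v ^ 2) * u' + q * (-v / (u ^ 2 - q * v ^ 2) * v'))) +
      q * (v * (u / (u ^ 2 - q * v ^ 2) * v' + -v / (u ^ 2 - q * v ^ 2) * u')) =
      u + (u ^ 2 - q * v ^ 2) / (u ^ 2 - q * v ^ 2) * u' := by ring
  have e2 : u * (u / (u ^ 2 - q * v ^ 2) * v' + -v / (u ^ 2 - q * v ^ 2) * u') +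
      v * (1 + (u / (u ^ 2 - q * v ^ 2) * u' + q * (-v / (u ^ 2 - q * v ^ 2) * v'))) =
      v + (u ^ 2 - q * v ^ 2) / (u ^ 2 - q * v ^ 2) * v' := by ring
  rw [e1, e2, div_self hne, one_mul, one_mul] at h2
  exact h2

end pos

section maxi

variable {F K : Type} [Field F] [LinearOrder F] [IsStrictOrderedRing F] [Field K] [Algebra F K]

variable (F) in
/-- the positive elements of an ordered subfield of `K` which extends the ordered field `F` -/
structure OC (Q : Set K) : Prop where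
  base : ∀ f : F, 0 < f → algebraMap F K f ∈ Q
  add : ∀ x ∈ Q, ∀ y ∈ Q, x + y ∈ Q
  mul : ∀ x ∈ Q, ∀ y ∈ Q, x * y ∈ Q
  zero : (0 : K) ∉ Q
  inv : ∀ x ∈ Q, x⁻¹ ∈ Q
  tot : ∀ x ∈ Q, ∀ y ∈ Q, x - y ∈ Q ∨ x = y ∨ y - x ∈ Q

lemma OC.exists_max : ∃ Q : Set K, OC F Q ∧ ∀ Q' : Set K, OC F Q' → Q ⊆ Q' → Q' = Q := by
  have h0 : OC F (algebraMap F K '' {f : F | 0 < f}) := by
    refine ⟨fun f hf => ⟨f, hf, rfl⟩, ?_, ?_, ?_, ?_, ?_⟩
    · rintro _ ⟨f, hf, rfl⟩ _ ⟨g, hg, rfl⟩
      exact ⟨f + g, add_pos hf hg, map_add _ _ _⟩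
    · rintro _ ⟨f, hf, rfl⟩ _ ⟨g, hg, rfl⟩
      exact ⟨f * g, mul_pos hf hg, map_mul _ _ _⟩
    · rintro ⟨f, hf, h⟩
      rw [map_eq_zero] at h
      rw [h] at hf
      exact lt_irrefl _ hf
    · rintro _ ⟨f, hf, rfl⟩
      exact ⟨f⁻¹, inv_pos.2 hf, map_inv₀ _ _⟩
    · rintro _ ⟨f, hf, rfl⟩ _ ⟨g, hg, rfl⟩
      rcases lt_trichotomy f g with h | h | h
      · right; right
        exact ⟨g - f, sub_pos.2 h, map_sub _ _ _⟩
      · right; left
        rw [h]
      · left
        exact ⟨f - g, sub_pos.2 h, map_sub _ _ _⟩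
  obtain ⟨Q, -, hQ⟩ := zorn_subset_nonempty {Q : Set K | OC F Q} (by
    intro c hc hchain hne
    obtain ⟨Q₀, hQ₀⟩ := hne
    have hdir : ∀ x ∈ ⋃₀ c, ∀ y ∈ ⋃₀ c, ∃ Q ∈ c, x ∈ Q ∧ y ∈ Q := by
      rintro x ⟨Q, hQ, hx⟩ y ⟨Q', hQ', hy⟩
      rcases hchain.total hQ hQ' with h | h
      · exact ⟨Q', hQ', h hx, hy⟩
      · exact ⟨Q, hQ, hx, h hy⟩
    refine ⟨⋃₀ c, ⟨?_, ?_, ?_, ?_, ?_, ?_⟩, fun Q hQ => Set.subset_sUnion_of_mem hQ⟩
    · exact fun f hf => ⟨Q₀, hQ₀, (hc hQ₀).base f hf⟩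
    · intro x hx y hy
      obtain ⟨Q, hQ, h1, h2⟩ := hdir x hx y hy
      exact ⟨Q, hQ, (hc hQ).add x h1 y h2⟩
    · intro x hx y hy
      obtain ⟨Q, hQ, h1, h2⟩ := hdir x hx y hy
      exact ⟨Q, hQ, (hc hQ).mul x h1 y h2⟩
    · rintro ⟨Q, hQ, h⟩
      exact (hc hQ).zero h
    · rintro x ⟨Q, hQ, h⟩
      exact ⟨Q, hQ, (hc hQ).inv x h⟩
    · intro x hx y hy
      obtain ⟨Q, hQ, h1, h2⟩ := hdir x hx y hy
      rcases (hc hQ).tot x h1 y h2 with h | h | h
      · exact Or.inl ⟨Q, hQ, h⟩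
      · exact Or.inr (Or.inl h)
      · exact Or.inr (Or.inr ⟨Q, hQ, h⟩)) _ h0
  exact ⟨Q, hQ.prop, fun Q' h1 h2 => (Set.Subset.antisymm h2 (hQ.le_of_ge h1 h2)).symm⟩

variable {Q : Set K}

lemma OC.one (h : OC F Q) : (1 : K) ∈ Q := by
  have := h.base 1 zero_lt_one
  rwa [map_one] at this

lemma OC.not_neg (h : OC F Q) {x : K} (hx : x ∈ Q) : -x ∉ Q := by
  intro h1
  apply h.zero
  have := h.add _ hx _ h1
  rwa [add_neg_cancel] at this

/-- the ordered field -/
def OC.fld (h : OC F Q) : IntermediateField F K where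
  carrier := {x | x ∈ Q ∨ x = 0 ∨ -x ∈ Q}
  mul_mem' := by
    rintro x y (hx | rfl | hx) (hy | rfl | hy)
    · exact Or.inl (h.mul _ hx _ hy)
    · right; left; rw [mul_zero]
    · right; right; rw [← mul_neg]; exact h.mul _ hx _ hy
    · right; left; rw [zero_mul]
    · right; left; rw [zero_mul]
    · right; left; rw [zero_mul]
    · right; right; rw [← neg_mul]; exact h.mul _ hx _ hy
    · right; left; rw [mul_zero]
    · left; rw [← neg_mul_neg]; exact h.mul _ hx _ hy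
  add_mem' := by
    rintro x y (hx | rfl | hx) (hy | rfl | hy)
    · exact Or.inl (h.add _ hx _ hy)
    · rw [add_zero]; exact Or.inl hx
    · rcases h.tot _ hx _ hy with h1 | h1 | h1
      · left; rwa [sub_neg_eq_add] at h1
      · right; left; rw [h1, neg_add_cancel]
      · right; right; rw [neg_add, add_comm, ← sub_eq_add_neg]; exact h1
    · rw [zero_add]; exact Or.inl hy
    · rw [zero_add]; exact Or.inr (Or.inl rfl)
    · rw [zero_add]; exact Or.inr (Or.inr hy)
    · rcases h.tot _ hy _ hx with h1 | h1 | h1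
      · left; rw [sub_neg_eq_add] at h1; rwa [add_comm]
      · right; left; rw [h1, add_neg_cancel]
      · right; right; rw [neg_add, ← sub_eq_add_neg]; exact h1
    · rw [add_zero]; exact Or.inr (Or.inr hx)
    · right; right; rw [neg_add]; exact h.add _ hx _ hy
  algebraMap_mem' := by
    intro f
    rcases lt_trichotomy f 0 with h1 | h1 | h1
    · right; right
      rw [← map_neg]
      exact h.base _ (neg_pos.2 h1)
    · right; left
      rw [h1, map_zero]
    · left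
      exact h.base _ h1
  inv_mem' := by
    rintro x (hx | rfl | hx)
    · exact Or.inl (h.inv _ hx)
    · right; left; rw [inv_zero]
    · right; right; rw [← inv_neg]; exact h.inv _ hx

lemma OC.mem_fld (h : OC F Q) {x : K} : x ∈ h.fld ↔ x ∈ Q ∨ x = 0 ∨ -x ∈ Q := Iff.rfl

/-- the ordering -/
@[reducible] noncomputable def OC.ord (h : OC F Q) : LinearOrder h.fld where
  le x y := (x : K) = y ∨ (y : K) - x ∈ Q
  le_refl x := Or.inl rfl
  le_trans := by
    rintro x y z (h1 | h1) (h2 | h2)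
    · exact Or.inl (h1.trans h2)
    · right; rw [h1]; exact h2
    · right; rw [← h2]; exact h1
    · right
      have := h.add _ h1 _ h2
      rwa [sub_add_sub_cancel'] at this
  le_antisymm := by
    rintro x y (h1 | h1) (h2 | h2)
    · exact Subtype.ext h1
    · exact Subtype.ext h1
    · exact Subtype.ext h2.symm
    · exact absurd h2 (by rw [← neg_sub]; exact h.not_neg h1)
  le_total := by
    intro x y
    rcases h.mem_fld.1 (sub_mem y.2 x.2) with h1 | h1 | h1
    · exact Or.inl (Or.inr h1)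
    · exact Or.inl (Or.inl (sub_eq_zero.1 h1).symm)
    · exact Or.inr (Or.inr (by rwa [neg_sub] at h1))
  toDecidableLE := Classical.decRel _

lemma OC.lt_iff (h : OC F Q) (x y : h.fld) :
    letI := h.ord
    x < y ↔ (y : K) - x ∈ Q := by
  let _ := h.ord
  constructor
  · intro h1
    rcases (le_of_lt h1 : (x : K) = y ∨ (y : K) - x ∈ Q) with h2 | h2
    · exact absurd (Subtype.ext h2) h1.ne
    · exact h2
  · intro h1
    refine lt_of_le_of_ne (show x ≤ y from Or.inr h1) ?_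
    rintro rfl
    rw [sub_self] at h1
    exact h.zero h1

lemma OC.pos_iff (h : OC F Q) (x : h.fld) :
    letI := h.ord
    0 < x ↔ (x : K) ∈ Q := by
  have := h.lt_iff 0 x
  simpa using this

lemma OC.strict (h : OC F Q) :
    letI := h.ord
    IsStrictOrderedRing h.fld := by
  let _ := h.ord
  have : IsOrderedAddMonoid h.fld := by
    refine ⟨?_, ?_⟩
    · intro a b hab c
      rcases (hab : (a : K) = b ∨ (b : K) - a ∈ Q) with h1 | h1
      · rw [Subtype.ext h1]
      · refine Or.inr ?_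
        have e : ((b + c : h.fld) : K) - ((a + c : h.fld) : K) = (b : K) - a := by
          push_cast
          ring
        rw [e]
        exact h1
    · intro a b hab c
      rcases (hab : (a : K) = b ∨ (b : K) - a ∈ Q) with h1 | h1
      · rw [Subtype.ext h1]
      · refine Or.inr ?_
        have e : ((c + b : h.fld) : K) - ((c + a : h.fld) : K) = (b : K) - a := by
          push_cast
          ring
        rw [e]
        exact h1
  have : ZeroLEOneClass h.fld := ⟨((h.pos_iff 1).2 h.one).le⟩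
  refine IsStrictOrderedRing.of_mul_pos ?_
  intro a b ha hb
  rw [h.pos_iff] at ha hb ⊢
  exact h.mul _ ha _ hb

/-- the ordering of a quadratic extension by a square root of a positive element -/
theorem OC_quad {E : Type} [Field E] [LinearOrder E] [IsStrictOrderedRing E] [Algebra F E]
    [Algebra E K] [IsScalarTower F E K] (hFE : ∀ f : F, 0 < f → 0 < algebraMap F E f) {q : E}
    (hq0 : 0 < q) {s : K} (hqs : algebraMap E K q = s ^ 2) (hsE : ∀ t : E, algebraMap E K t ≠ s) :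
    OC F {z : K | ∃ u v : E, z = algebraMap E K u + algebraMap E K v * s ∧ Pos q u v} := by
  have hq2 : ∀ t : E, t ^ 2 ≠ q := by
    intro t ht
    have h1 : (algebraMap E K t) ^ 2 = s ^ 2 := by rw [← map_pow, ht, hqs]
    have h2 : (algebraMap E K t - s) * (algebraMap E K t + s) = 0 := by linear_combination h1
    rcases mul_eq_zero.1 h2 with h3 | h3
    · exact hsE t (sub_eq_zero.1 h3)
    · apply hsE (-t)
      rw [map_neg]
      linear_combination -h3
  have hz : ∀ u v : E, algebraMap E K u + algebraMap E K v * s = 0 → u = 0 ∧ v = 0 := by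
    intro u v h1
    by_cases hv : v = 0
    · subst hv
      rw [map_zero, zero_mul, add_zero, map_eq_zero] at h1
      exact ⟨h1, rfl⟩
    · exfalso
      apply hsE (-u / v)
      have hv' : algebraMap E K v ≠ 0 := (map_ne_zero _).2 hv
      rw [map_div₀, map_neg, div_eq_iff hv']
      linear_combination -h1
  have hpos : ∀ u : E, 0 < u → Pos q u 0 := by
    intro u hu
    left
    refine ⟨hu, ?_⟩
    have := pow_pos hu 2
    simpa using this
  refine ⟨?_, ?_, ?_, ?_, ?_, ?_⟩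
  · intro f hf
    refine ⟨algebraMap F E f, 0, ?_, hpos _ (hFE f hf)⟩
    rw [map_zero, zero_mul, add_zero, ← IsScalarTower.algebraMap_apply]
  · rintro _ ⟨u, v, rfl, h1⟩ _ ⟨u', v', rfl, h2⟩
    exact ⟨u + u', v + v', by rw [map_add, map_add]; ring, h1.add hq0 hq2 h2⟩
  · rintro _ ⟨u, v, rfl, h1⟩ _ ⟨u', v', rfl, h2⟩
    refine ⟨_, _, ?_, h1.mul hq0 h2⟩
    rw [map_add, map_add, map_mul, map_mul, map_mul, map_mul, map_mul, hqs]
    ring
  · rintro ⟨u, v, h1, h2⟩
    obtain ⟨rfl, rfl⟩ := hz u v h1.symm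
    exact h2.ne
  · rintro _ ⟨u, v, rfl, h1⟩
    have hne : u ^ 2 - q * v ^ 2 ≠ 0 := by
      rcases h1 with ⟨-, h⟩ | ⟨-, h⟩
      · exact (sub_pos.2 h).ne'
      · exact (sub_neg.2 h).ne
    have hne' : algebraMap E K (u ^ 2 - q * v ^ 2) ≠ 0 := (map_ne_zero _).2 hne
    have hfac : (algebraMap E K u + algebraMap E K v * s) *
        (algebraMap E K u - algebraMap E K v * s) = algebraMap E K (u ^ 2 - q * v ^ 2) := by
      rw [map_sub, map_mul, map_pow, map_pow, hqs]
      ring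
    have hne1 : algebraMap E K u + algebraMap E K v * s ≠ 0 := by
      intro h2
      rw [h2, zero_mul] at hfac
      exact hne' hfac.symm
    refine ⟨_, _, ?_, h1.inv⟩
    rw [map_div₀, map_div₀, map_neg, inv_eq_iff_eq_inv]
    have e : algebraMap E K u / algebraMap E K (u ^ 2 - q * v ^ 2) +
        -algebraMap E K v / algebraMap E K (u ^ 2 - q * v ^ 2) * s =
        (algebraMap E K u - algebraMap E K v * s) / algebraMap E K (u ^ 2 - q * v ^ 2) := by ring
    have hne2 : algebraMap E K u - algebraMap E K v * s ≠ 0 := by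
      intro h2
      rw [h2, mul_zero] at hfac
      exact hne' hfac.symm
    rw [e, inv_div, eq_div_iff hne2, hfac]
  · rintro _ ⟨u, v, rfl, h1⟩ _ ⟨u', v', rfl, h2⟩
    by_cases h3 : u - u' = 0 ∧ v - v' = 0
    · right; left
      rw [sub_eq_zero.1 h3.1, sub_eq_zero.1 h3.2]
    · rw [not_and_or] at h3
      rcases Pos.total hq0 hq2 h3 with h4 | h4
      · left
        exact ⟨_, _, by rw [map_sub, map_sub]; ring, h4⟩
      · right; right
        exact ⟨_, _, by rw [map_neg, map_neg, map_sub, map_sub]; ring, h4⟩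

/-- **Square roots.** -/
theorem OC.sqrt (h : OC F Q) (hmax : ∀ Q' : Set K, OC F Q' → Q ⊆ Q' → Q' = Q) {s : K}
    (hs : s ^ 2 ∈ Q) : s ∈ h.fld := by
  by_contra hsE
  let _ := h.ord
  have := h.strict
  have hqm : s ^ 2 ∈ h.fld := h.mem_fld.2 (Or.inl hs)
  have hq0 : (0 : h.fld) < ⟨s ^ 2, hqm⟩ := (h.pos_iff _).2 hs
  have hOC := OC_quad (F := F) (K := K) (E := h.fld) (fun f hf => (h.pos_iff _).2 (h.base f hf)) hq0
    (s := s) rfl (fun t ht => hsE (by rw [← ht]; exact t.2))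
  have hpos : ∀ u : h.fld, 0 < u → Pos (⟨s ^ 2, hqm⟩ : h.fld) u 0 := by
    intro u hu
    left
    refine ⟨hu, ?_⟩
    have := pow_pos hu 2
    simpa using this
  have h1 := hmax _ hOC (by
    intro x hx
    refine ⟨⟨x, h.mem_fld.2 (Or.inl hx)⟩, 0, ?_, hpos _ ((h.pos_iff _).2 hx)⟩
    rw [map_zero, zero_mul, add_zero]
    rfl)
  have h2 : s ∈ {z : K | ∃ u v : h.fld, z = algebraMap h.fld K u + algebraMap h.fld K v * s ∧
      Pos (⟨s ^ 2, hqm⟩ : h.fld) u v} := by
    refine ⟨0, 1, by rw [map_zero, map_one]; ring, Or.inr ⟨zero_lt_one, ?_⟩⟩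
    rw [one_pow, mul_one, zero_pow two_ne_zero]
    exact hq0
  rw [h1] at h2
  exact hsE (h.mem_fld.2 (Or.inl h2))

end maxi

end Pool.Agent.V7H55.ET2
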