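import Mathlib
import Pool.Agent.V7H55.ET2.Euc
import Pool.Agent.V7H55.ET2.Ord

set_option autoImplicit false

/-!
# The subgroup of order two of an ordering
-/

open IntermediateField

namespace Pool.Agent.V7H55.ET2

open Pool.Agent.V7H55.ET
open Pool.Agent.Y469.EP (Tw)
open Pool.Agent.Y920.EP (pwG nmG)
open Pool.Agent.Results.MP_600e55_nt.SymbolPartitions (powers IsMaximalPExtension)

/-- an ordered field in which all positive elements are squares -/
theorem card_two {E K : Type} [Field E] [Field K] [Algebra E K] [IsGalois E K] [LinearOrder E]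
    [IsStrictOrderedRing E] (hsq : ∀ x : E, 0 < x → ∃ y : E, x = y ^ 2)
    (hL : ∀ x : K, ∃ L : IntermediateField E K, x ∈ L ∧ Tw 2 L) (hi : ∃ i : K, i ^ 2 = -1) :
    Nat.card (K ≃ₐ[E] K) = 2 := by
  have hp : Nat.Prime 2 := Nat.prime_two
  have hF2 : (2 : E) ≠ 0 := two_ne_zero
  obtain ⟨i, hi⟩ := hi
  have hneg : ∀ x : E, x ^ 2 ≠ -1 := by
    intro x hx
    have := sq_nonneg x
    rw [hx] at this
    linarith [zero_lt_one (α := E)]
  have hsqE : ∀ d : E⟮i⟯, ∃ e : E⟮i⟯, e ^ 2 = d := by
    intro d
    obtain ⟨a, b, hab⟩ := gauss hneg hi d.2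
    obtain ⟨c, e, hce⟩ := gauss_sq (K := K) hsq hi a b
    refine ⟨⟨algebraMap E K c + algebraMap E K e * i, ?_⟩, ?_⟩
    · exact add_mem (IntermediateField.algebraMap_mem _ c)
        (mul_mem (IntermediateField.algebraMap_mem _ e)
        (IntermediateField.mem_adjoin_simple_self E i))
    · apply Subtype.ext
      rw [← hab] at hce
      exact hce
  have htop : E⟮i⟯ = ⊤ := by
    rw [eq_top_iff]
    intro x _
    obtain ⟨M, hxM, hfd, hg, k, hk⟩ := comp hp hL E⟮i⟯ x
    have := hfd
    have := hg
    have hE2 : (2 : E⟮i⟯) ≠ 0 := by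
      intro h
      apply hF2
      apply (algebraMap E E⟮i⟯).injective
      rw [map_ofNat, h, map_zero]
    have hk0 := no_ext hE2 hsqE hk
    rw [hk0, pow_zero] at hk
    rw [IntermediateField.finrank_eq_one_iff.1 hk] at hxM
    obtain ⟨y, rfl⟩ := IntermediateField.mem_bot.1 hxM
    exact y.2
  have hint : IsIntegral E i := ⟨Polynomial.X ^ 2 - Polynomial.C (-1 : E),
    Polynomial.monic_X_pow_sub_C _ two_ne_zero, by
      rw [Polynomial.eval₂_sub, Polynomial.eval₂_pow, Polynomial.eval₂_X, Polynomial.eval₂_C, hi,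
        map_neg, map_one, sub_self]⟩
  have hfd : FiniteDimensional E E⟮i⟯ := IntermediateField.adjoin.finiteDimensional hint
  have hmin : minpoly E i = Polynomial.X ^ 2 - Polynomial.C (-1 : E) := by
    symm
    apply minpoly.eq_of_irreducible_of_monic
    · exact X_pow_sub_C_irreducible_of_prime hp hneg
    · rw [map_sub, map_pow, Polynomial.aeval_X, Polynomial.aeval_C, hi, map_neg, map_one, sub_self]
    · exact Polynomial.monic_X_pow_sub_C _ two_ne_zero
  have hrank : Module.finrank E K = 2 := by
    rw [← IntermediateField.finrank_top', ← htop, IntermediateField.adjoin.finrank hint, hmin,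
      Polynomial.natDegree_X_pow_sub_C]
  have hfdK : FiniteDimensional E K := Module.finite_of_finrank_pos (by rw [hrank]; exact two_pos)
  rw [IsGalois.card_aut_eq_finrank, hrank]

/-- **The subgroup of order two of an ordering.** -/
theorem cone_dec {F : Type} [Field F] {P : Subgroup Fˣ} (hP : IsCone P)
    (K : IntermediateField F (AlgebraicClosure F)) (hK : IsMaximalPExtension 2 K) :
    ∃ D : Subgroup (↥K ≃ₐ[F] ↥K), IsClosed (D : Set (↥K ≃ₐ[F] ↥K)) ∧ Nat.card D = 2 ∧
      ∃ E : IntermediateField F K, E = fixedField D ∧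
        (Units.map (algebraMap F E : F →* E)).range ⊔ powers E 2 = ⊤ ∧
        (powers E 2).comap (Units.map (algebraMap F E : F →* E)) = P ∧
        Set.BijOn (restr (p := 2) E) {c | c ∈ Sym 2 (powers E 2)} {c | c ∈ Sym 2 P} := by
  have hp : Nat.Prime 2 := Nat.prime_two
  have hfact : Fact (Nat.Prime 2) := ⟨hp⟩
  obtain ⟨o₁, o₂, hPc⟩ := hP
  have hF2 : (2 : F) ≠ 0 := two_ne_zero
  have hζ : IsPrimitiveRoot (-1 : F) 2 := by
    refine IsPrimitiveRoot.mk_of_lt _ two_pos (by ring) ?_
    intro l hl0 hl2
    have : l = 1 := by omega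
    subst this
    rw [pow_one]
    intro h
    apply hF2
    linear_combination -h
  obtain ⟨hgal, hL, -⟩ := Pool.Agent.Y469.EP.t_MAX' 2 hp F ⟨_, hζ⟩ K hK
  have hcl := closed_root hp hζ K hK
  obtain ⟨Q, h, hmax⟩ := OC.exists_max (F := F) (K := K)
  let _ := h.ord
  have := h.strict
  have hsq : ∀ x : h.fld, 0 < x → ∃ y : h.fld, x = y ^ 2 := by
    intro x hx
    obtain ⟨s, hs⟩ := hcl (x : K)
    have hsQ : s ^ 2 ∈ Q := by
      rw [hs]
      exact (h.pos_iff x).1 hx
    exact ⟨⟨s, h.sqrt hmax hsQ⟩, Subtype.ext hs.symm⟩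
  have hpos : ∀ f : Fˣ, 0 < (algebraMap F h.fld f) ↔ f ∈ P := by
    intro f
    rw [h.pos_iff, hPc]
    constructor
    · intro h1
      by_contra h2
      rw [not_lt] at h2
      have h3 : (f : F) < 0 := lt_of_le_of_ne h2 f.ne_zero
      have h4 := h.base _ (neg_pos.2 h3)
      rw [map_neg] at h4
      exact h.not_neg h1 h4
    · intro h1
      exact h.base _ h1
  have hpwE : ∀ x : (h.fld)ˣ, x ∈ powers h.fld 2 ↔ 0 < (x : h.fld) := by
    intro x
    constructor
    · rintro ⟨y, rfl⟩
      change 0 < ((y ^ 2 : (h.fld)ˣ) : h.fld)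
      rw [Units.val_pow_eq_pow_val]
      have := y.ne_zero
      positivity
    · intro hx
      obtain ⟨y, hy⟩ := hsq _ hx
      have hy0 : y ≠ 0 := by
        rintro rfl
        apply x.ne_zero
        rw [hy]
        ring
      exact ⟨Units.mk0 y hy0, Units.ext (by
        change ((Units.mk0 y hy0 ^ 2 : (h.fld)ˣ) : h.fld) = x
        rw [Units.val_pow_eq_pow_val, Units.val_mk0, hy])⟩
  -- the sign
  have hsgn : ∀ x : (h.fld)ˣ, ∃ r : Fˣ, (0 < (x : h.fld) → r = 1) ∧
      (¬ 0 < (x : h.fld) → r = -1) := by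
    intro x
    by_cases hx : 0 < (x : h.fld)
    · exact ⟨1, fun _ => rfl, fun h => absurd hx h⟩
    · exact ⟨-1, fun h => absurd h hx, fun _ => rfl⟩
  choose r hr1 hr2 using hsgn
  have hneg : ∀ x : (h.fld)ˣ, ¬ 0 < (x : h.fld) → 0 < ((-x : (h.fld)ˣ) : h.fld) := by
    intro x hx
    rw [Units.val_neg]
    rw [not_lt] at hx
    have := lt_of_le_of_ne hx x.ne_zero
    linarith
  have hrmul : ∀ x y, r (x * y) = r x * r y := by
    intro x y
    by_cases hx : 0 < (x : h.fld) <;> by_cases hy : 0 < (y : h.fld)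
    · rw [hr1 x hx, hr1 y hy, one_mul]
      exact hr1 _ (by rw [Units.val_mul]; exact mul_pos hx hy)
    · rw [hr1 x hx, hr2 y hy, one_mul]
      refine hr2 _ ?_
      have h1 := mul_pos hx (hneg y hy)
      rw [Units.val_neg] at h1
      rw [Units.val_mul]
      intro h2
      linarith
    · rw [hr2 x hx, hr1 y hy, mul_one]
      refine hr2 _ ?_
      have h1 := mul_pos (hneg x hx) hy
      rw [Units.val_neg] at h1
      rw [Units.val_mul]
      intro h2
      linarith
    · rw [hr2 x hx, hr2 y hy, neg_mul_neg, one_mul]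
      refine hr1 _ ?_
      have h1 := mul_pos (hneg x hx) (hneg y hy)
      rw [Units.val_neg, Units.val_neg] at h1
      rw [Units.val_mul]
      linarith
  have hrE : ∀ x : (h.fld)ˣ, x⁻¹ * Units.map (algebraMap F h.fld : F →* h.fld) (r x) ∈
      powers h.fld 2 := by
    intro x
    by_cases hx : 0 < (x : h.fld)
    · rw [hr1 x hx, map_one, mul_one]
      exact inv_mem ((hpwE x).2 hx)
    · have e : Units.map (algebraMap F h.fld : F →* h.fld) (r x) = -1 := by
        rw [hr2 x hx]
        apply Units.ext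
        rw [Units.coe_map, Units.val_neg, Units.val_one, Units.val_neg, Units.val_one]
        exact (map_neg (algebraMap F h.fld) 1).trans (by rw [map_one])
      rw [e, mul_neg, mul_one, ← inv_neg]
      exact inv_mem ((hpwE _).2 (hneg x hx))
  have hrP : ∀ f : Fˣ, f⁻¹ * r (Units.map (algebraMap F h.fld : F →* h.fld) f) ∈ P := by
    intro f
    by_cases hf : f ∈ P
    · rw [hr1 _ ((hpos f).2 hf), mul_one]
      exact inv_mem hf
    · rw [hr2 _ (fun h1 => hf ((hpos f).1 h1)), mul_neg, mul_one, ← inv_neg]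
      refine inv_mem ?_
      rw [hPc] at hf ⊢
      rw [Units.val_neg]
      rw [not_lt] at hf
      have := lt_of_le_of_ne hf f.ne_zero
      linarith
  refine ⟨h.fld.fixingSubgroup, InfiniteGalois.fixingSubgroup_isClosed _, ?_, h.fld,
    (InfiniteGalois.fixedField_fixingSubgroup _).symm, ?_, ?_, ?_⟩
  · have h1 : Nat.card h.fld.fixingSubgroup = Nat.card (K ≃ₐ[h.fld] K) :=
      Nat.card_congr (IntermediateField.fixingSubgroupEquiv h.fld).toEquiv
    rw [h1]
    exact card_two hsq (fun x => comp hp hL h.fld x) (hcl (-1))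
  · rw [eq_top_iff]
    intro x _
    have e : x = Units.map (algebraMap F h.fld : F →* h.fld) (r x) *
        (x⁻¹ * Units.map (algebraMap F h.fld : F →* h.fld) (r x))⁻¹ := by
      rw [mul_inv, inv_inv, mul_comm x, mul_inv_cancel_left]
    rw [e]
    exact Subgroup.mul_mem_sup ⟨_, rfl⟩ (inv_mem (hrE x))
  · ext f
    rw [Subgroup.mem_comap, hpwE]
    exact hpos f
  · refine ⟨?_, ?_, ?_⟩
    · intro c hc
      refine ⟨fun a b x => ?_, fun x a b => ?_, fun x y hxy => ?_, fun x hx y => ?_⟩
      · unfold restr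
        rw [map_mul]
        exact hc.1 _ _ _
      · unfold restr
        rw [map_mul]
        exact hc.2.1 _ _ _
      · refine hc.2.2.1 _ _ ?_
        change algebraMap F h.fld x + algebraMap F h.fld y = 1
        rw [← map_add, hxy, map_one]
      · exact Sym.van hc ((hpwE _).2 ((hpos x).2 hx)) _
    · intro c hc d hd hcd
      funext x y
      have h1 : c (Units.map (algebraMap F h.fld : F →* h.fld) (r x))
          (Units.map (algebraMap F h.fld : F →* h.fld) (r y)) = c x y := congr' hc (hrE x) (hrE y)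
      have h2 : d (Units.map (algebraMap F h.fld : F →* h.fld) (r x))
          (Units.map (algebraMap F h.fld : F →* h.fld) (r y)) = d x y := congr' hd (hrE x) (hrE y)
      rw [← h1, ← h2]
      exact congrFun (congrFun hcd (r x)) (r y)
    · intro c hc
      have hc' : c ∈ Sym 2 P := hc
      refine ⟨fun x y => c (r x) (r y), ⟨?_, ?_, ?_, ?_⟩, ?_⟩
      · intro a b x
        change c (r (a * b)) (r x) = c (r a) (r x) + c (r b) (r x)
        rw [hrmul]
        exact hc'.1 _ _ _
      · intro x a b
        change c (r x) (r (a * b)) = c (r x) (r a) + c (r x) (r b)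
        rw [hrmul]
        exact hc'.2.1 _ _ _
      · intro x y hxy
        change c (r x) (r y) = 0
        by_cases hx : 0 < (x : h.fld)
        · rw [hr1 x hx]
          exact (Sym.isSymbol hc').one_left _
        · have hy : 0 < (y : h.fld) := by
            rw [not_lt] at hx
            have e : (y : h.fld) = 1 - x := by linear_combination hxy
            rw [e]
            linarith [zero_lt_one (α := h.fld)]
          rw [hr1 y hy]
          exact (Sym.isSymbol hc').one_right _
      · intro x hx y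
        change c (r x) (r y) = 0
        rw [hr1 x ((hpwE x).1 hx)]
        exact (Sym.isSymbol hc').one_left _
      · funext x y
        exact congr' hc' (hrP x) (hrP y)

end Pool.Agent.V7H55.ET2
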